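import Pool.Agent.Helper37.KW.St

/-!
# Project KW: module P2 (primitive recursive checks 2)
-/

set_option autoImplicit false

namespace Pool.Agent.Helper37.KW

open Pool.Agent.Helper31.BD Pool.Agent.Helper84.LD

theorem p2_pow : Primrec₂ (fun a n : ℕ => a ^ n) := by
  have h : Primrec₂ fun (a n : ℕ) => (Nat.rec 1 (fun _ y => y * a) n : ℕ) := by
    refine Primrec.nat_rec (f := fun _ : ℕ => (1 : ℕ))
      (g := fun (a : ℕ) (x : ℕ × ℕ) => x.2 * a) (Primrec.const 1) ?_
    exact Primrec.nat_mul.comp (Primrec.snd.comp Primrec.snd) Primrec.fst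
  refine h.of_eq fun a n => ?_
  induction n with
  | zero => rfl
  | succ n ih => rw [pow_succ, ← ih]

theorem p2_sum {σ β : Type*} [Primcodable σ] [Primcodable β] {f : σ → List β} {g : σ → β → ℕ}
    (hf : Primrec f) (hg : Primrec₂ g) : Primrec fun s => ((f s).map (g s)).sum := by
  have h : Primrec fun s => (f s).foldr (fun b t => g s b + t) 0 := by
    refine Primrec.list_foldr (f := f) (g := fun _ => (0 : ℕ))
      (h := fun s (x : β × ℕ) => g s x.1 + x.2) hf (Primrec.const _) ?_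
    exact Primrec.nat_add.comp (hg.comp Primrec.fst (Primrec.fst.comp Primrec.snd))
      (Primrec.snd.comp Primrec.snd)
  refine h.of_eq fun s => ?_
  induction f s with
  | nil => rfl
  | cons b l ih => simp only [List.foldr_cons, List.map_cons, List.sum_cons, ih]

theorem p2_st : Primrec fun x : Inp × List ℕ => mk_st x.1 x.2 := by
  unfold mk_st
  refine Primrec.list_foldl (f := fun x : Inp × List ℕ => x.2)
    (g := fun x : Inp × List ℕ => x.1.2.2.1)
    (h := fun (x : Inp × List ℕ) (y : ℕ × ℕ) => x.1.2.1.getD (y.1 * x.1.1 + y.2) 0)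
    Primrec.snd ?_ ?_
  · exact Primrec.fst.comp (Primrec.snd.comp (Primrec.snd.comp Primrec.fst))
  · refine (Primrec.list_getD 0).comp
      (Primrec.fst.comp (Primrec.snd.comp (Primrec.fst.comp Primrec.fst))) ?_
    refine Primrec.nat_add.comp (Primrec.nat_mul.comp (Primrec.fst.comp Primrec.snd) ?_)
      (Primrec.snd.comp Primrec.snd)
    exact Primrec.fst.comp (Primrec.fst.comp Primrec.fst)

theorem p2_ineq : PrimrecPred (fun q : (ℕ × ℕ) × (ℕ × ℕ) × List (List ℕ) =>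
    Ineq q.1.1 q.1.2 q.2.1.1 q.2.1.2 q.2.2) := by
  unfold Ineq
  have ha : Primrec fun q : (ℕ × ℕ) × (ℕ × ℕ) × List (List ℕ) => q.1.1 :=
    Primrec.fst.comp Primrec.fst
  have hb : Primrec fun q : (ℕ × ℕ) × (ℕ × ℕ) × List (List ℕ) => q.1.2 :=
    Primrec.snd.comp Primrec.fst
  have hk : Primrec fun q : (ℕ × ℕ) × (ℕ × ℕ) × List (List ℕ) => q.2.1.1 :=
    Primrec.fst.comp (Primrec.fst.comp Primrec.snd)
  have hM : Primrec fun q : (ℕ × ℕ) × (ℕ × ℕ) × List (List ℕ) => q.2.1.2 + 1 :=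
    Primrec.succ.comp (Primrec.snd.comp (Primrec.fst.comp Primrec.snd))
  have hC : Primrec fun q : (ℕ × ℕ) × (ℕ × ℕ) × List (List ℕ) => q.2.2 :=
    Primrec.snd.comp Primrec.snd
  refine Primrec.nat_lt.comp (Primrec.nat_add.comp ?_
    (Primrec.nat_mul.comp hk (p2_pow.comp hb hM))) (p2_pow.comp ha hM)
  refine p2_sum (f := fun q : (ℕ × ℕ) × (ℕ × ℕ) × List (List ℕ) => q.2.2)
    (g := fun (q : (ℕ × ℕ) × (ℕ × ℕ) × List (List ℕ)) (c : List ℕ) =>
      q.1.2 ^ c.length * q.1.1 ^ (q.2.1.2 + 1 - c.length)) hC ?_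
  have hl : Primrec fun x : ((ℕ × ℕ) × (ℕ × ℕ) × List (List ℕ)) × List ℕ => x.2.length :=
    Primrec.list_length.comp Primrec.snd
  exact Primrec.nat_mul.comp (p2_pow.comp (hb.comp Primrec.fst) hl)
    (p2_pow.comp (ha.comp Primrec.fst) (Primrec.nat_sub.comp (hM.comp Primrec.fst) hl))

theorem p2_cl : Primrec (fun q : Inp × List ℕ × ℕ => cl q.1 q.2.1 q.2.2) := by
  unfold cl
  refine p2_sum (f := fun q : Inp × List ℕ × ℕ => FL q.1.1 q.2.2)
    (g := fun (q : Inp × List ℕ × ℕ) (d : List ℕ) =>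
      if mk_st q.1 (q.2.1 ++ d) = mk_st q.1 q.2.1 then 1 else 0) ?_ ?_
  · exact primrec_FL.comp (Primrec.fst.comp Primrec.fst) (Primrec.snd.comp Primrec.snd)
  · have hq : Primrec fun x : (Inp × List ℕ × ℕ) × List ℕ => x.1.1 :=
      Primrec.fst.comp Primrec.fst
    have hu : Primrec fun x : (Inp × List ℕ × ℕ) × List ℕ => x.1.2.1 :=
      Primrec.fst.comp (Primrec.snd.comp Primrec.fst)
    refine Primrec.ite ?_ (Primrec.const 1) (Primrec.const 0)
    exact pp_eq (p2_st.comp (Primrec.pair hq (Primrec.list_append.comp hu Primrec.snd)))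
      (p2_st.comp (Primrec.pair hq hu))

theorem hP2 : StP2 := ⟨p2_ineq, p2_cl⟩

end Pool.Agent.Helper37.KW
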