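import Pool.Agent.Helper37.KW.St

/-!
# Project KW: module P1 (primitive recursive checks 1)
-/

set_option autoImplicit false

namespace Pool.Agent.Helper37.KW

open Pool.Agent.Helper31.BD Pool.Agent.Helper84.LD

theorem p1_UDX : PrimrecPred UDX := by
  unfold UDX
  have hD : Primrec fun C : List (List ℕ) => D0 C + 3 :=
    Primrec.nat_add.comp mj_primrec_D0 (Primrec.const 3)
  refine ctx_forall_lt hD ?_
  refine ctx_forall_lt (hD.comp Primrec.fst) ?_
  refine ctx_forall_mem (primrec_pw.comp (Primrec.fst.comp Primrec.fst)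
    (Primrec.snd.comp Primrec.fst)) ?_
  refine ctx_forall_mem (primrec_pw.comp (Primrec.fst.comp (Primrec.fst.comp Primrec.fst))
    (Primrec.snd.comp Primrec.fst)) ?_
  refine pp_imp (pp_eq (Primrec.list_flatten.comp (Primrec.snd.comp Primrec.fst))
    (Primrec.list_flatten.comp Primrec.snd)) ?_
  exact pp_eq (Primrec.snd.comp Primrec.fst) Primrec.snd

theorem p1_Prd : PrimrecPred (fun q : Inp × List (List ℕ) => PrdOK q.1 q.2) := by
  unfold PrdOK
  refine ctx_forall_lt (Primrec.succ.comp (mj_primrec_NN.comp Primrec.fst)) ?_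
  refine ctx_forall_mem (primrec_pw.comp (Primrec.snd.comp Primrec.fst) Primrec.snd) ?_
  exact mj_pp_LX.comp (Primrec.pair (Primrec.fst.comp (Primrec.fst.comp Primrec.fst))
    (Primrec.list_flatten.comp Primrec.snd))

theorem hP1 : StP1 := ⟨p1_UDX, p1_Prd⟩

end Pool.Agent.Helper37.KW
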