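import Pool.Agent.Helper37.KW.Defs

/-!
# Project KW: basic lemmas
-/

set_option autoImplicit false

namespace Pool.Agent.Helper37.KW

open Pool.Agent.Helper31.BD Pool.Agent.Helper84.LD

/-- the state after `u ++ v` depends only on the state after `u` -/
theorem st_app {x : Inp} {u u' : List ℕ} (h : mk_st x u = mk_st x u') (v : List ℕ) :
    mk_st x (u ++ v) = mk_st x (u' ++ v) := by
  unfold mk_st at *
  rw [List.foldl_append, List.foldl_append, h]

theorem mem_LX_iff (x : Inp) (w : List ℕ) :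
    w ∈ LX x ↔ (∀ a ∈ w, a < x.1) ∧ mk_st x w ∈ x.2.2.2 := Iff.rfl

theorem LX_lt {x : Inp} {w : List ℕ} (h : w ∈ LX x) : ∀ a ∈ w, a < x.1 := h.1

/-- words with allowed letters and the same state -/
theorem mem_LX_of_st {x : Inp} {u u' : List ℕ} (h : mk_st x u = mk_st x u') (hu : u ∈ LX x)
    (hu' : ∀ a ∈ u', a < x.1) : u' ∈ LX x :=
  ⟨hu', by have := hu.2; change mk_st x u ∈ _ at this; rw [h] at this; exact this⟩

theorem lt_app {n : ℕ} {u v : List ℕ} (hu : ∀ a ∈ u, a < n) (hv : ∀ a ∈ v, a < n) :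
    ∀ a ∈ u ++ v, a < n := by
  intro a ha
  rcases List.mem_append.1 ha with h | h
  · exact hu a h
  · exact hv a h

theorem fct_left {L : Set (List ℕ)} (h : Fct L) {u v : List ℕ} (huv : u ++ v ∈ L) : u ∈ L :=
  h [] u v (by simpa using huv)

theorem fct_right {L : Set (List ℕ)} (h : Fct L) {u v : List ℕ} (huv : u ++ v ∈ L) : v ∈ L :=
  h u v [] (by simpa using huv)

/-- the words of given length over the letters `< N` in a language form a finite set -/
theorem fin_wds {L : Set (List ℕ)} {N : ℕ} (hN : ∀ w ∈ L, ∀ a ∈ w, a < N) (m : ℕ) :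
    {w : List ℕ | w ∈ L ∧ w.length = m}.Finite := by
  refine Set.Finite.subset ((FL N m).toFinset.finite_toSet) ?_
  rintro w ⟨hw, hl⟩
  simp only [List.coe_toFinset, Set.mem_ofPred_eq]
  exact mem_FL.2 ⟨hl, hN w hw⟩

/-- injections into the words of length `m` -/
theorem card_le_cnt {L : Set (List ℕ)} {N : ℕ} (hN : ∀ w ∈ L, ∀ a ∈ w, a < N) (m : ℕ)
    (S : Finset (List ℕ)) (hS : ∀ w ∈ S, w ∈ L ∧ w.length = m) : S.card ≤ cnt L m := by
  unfold cnt
  rw [← Set.ncard_coe_finset]
  exact Set.ncard_le_ncard (fun w hw => hS w hw) (fin_wds hN m)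

theorem nil_mem_Fac (C : Finset (List ℕ)) : [] ∈ Fac C :=
  ⟨[], [], [], by intro c hc; simp at hc, by simp⟩

theorem over_nil (C : Finset (List ℕ)) : Over C [] := by
  intro c hc; simp at hc

theorem over_app {C : Finset (List ℕ)} {l l' : List (List ℕ)} (h : Over C l) (h' : Over C l') :
    Over C (l ++ l') := by
  intro c hc
  rcases List.mem_append.1 hc with h1 | h1
  · exact h c h1
  · exact h' c h1

theorem flatten_mem_Fac {C : Finset (List ℕ)} {l : List (List ℕ)} (h : Over C l) :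
    l.flatten ∈ Fac C := ⟨[], [], l, h, by simp⟩

/-- the closed walk count as the cardinality of a finite set -/
theorem cl_eq (x : Inp) (u : List ℕ) (n : ℕ) :
    cl x u n = ((FL x.1 n).toFinset.filter fun d => mk_st x (u ++ d) = mk_st x u).card := by
  unfold cl
  rw [Finset.card_filter, List.sum_toFinset _ (mi_FL_nodup x.1 n)]

theorem mem_cl {x : Inp} {u d : List ℕ} {n : ℕ} :
    d ∈ ((FL x.1 n).toFinset.filter fun d => mk_st x (u ++ d) = mk_st x u) ↔
      d.length = n ∧ (∀ a ∈ d, a < x.1) ∧ mk_st x (u ++ d) = mk_st x u := by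
  rw [Finset.mem_filter, List.mem_toFinset, mem_FL]
  tauto

end Pool.Agent.Helper37.KW
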