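import Mathlib
import Pool.Agent.Helper31.BD.L

/-!
# Project KW (MP_93aa28_lc): codes with at most k words (definitions)

`Inp, LX, NN, Over, Fac, UD, pw, subs, wdLe, D0, FacX, KK` are those of `Pool.Agent.Helper31.BD.Defs`,
`mk_st x u` is the state of the automaton `x` after reading `u` (`Helper31/BD/K.lean`), `FL n t` is the list
of all words of length `t` over the letters `< n` (`Helper84/LD/Prims.lean`, `mem_FL`, `mi_FL_nodup`).
-/

set_option autoImplicit false

namespace Pool.Agent.Helper37.KW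

open Pool.Agent.Helper31.BD Pool.Agent.Helper84.LD

/-- factorial languages -/
def Fct (L : Set (List ℕ)) : Prop := ∀ u w v : List ℕ, u ++ w ++ v ∈ L → w ∈ L

/-- transitive languages -/
def Trn (L : Set (List ℕ)) : Prop := ∀ u ∈ L, ∀ v ∈ L, ∃ w : List ℕ, u ++ w ++ v ∈ L

/-- the number of words of length `m` -/
noncomputable def cnt (L : Set (List ℕ)) (m : ℕ) : ℕ := {w : List ℕ | w ∈ L ∧ w.length = m}.ncard

/-- the number of words of length `n` labelling a closed walk at the state reached by `u` -/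
def cl (x : Inp) (u : List ℕ) (n : ℕ) : ℕ :=
  ((FL x.1 n).map fun d => if mk_st x (u ++ d) = mk_st x u then 1 else 0).sum

/-- `u` leads to a recurrent state: from it every word of the language can be read and one can return,
with connecting words of length at most `NN x` -/
def Rec (x : Inp) (u : List ℕ) : Prop :=
  u ∈ LX x ∧ ∀ t ∈ LX x, ∃ w w' : List ℕ, w.length ≤ NN x ∧ w'.length ≤ NN x ∧
    (∀ a ∈ w, a < x.1) ∧ (∀ a ∈ w', a < x.1) ∧ u ++ w ++ t ∈ LX x ∧
    mk_st x (u ++ w ++ t ++ w') = mk_st x u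

/-- the weighted number of the words of a finite set -/
noncomputable def wt (C : Finset (List ℕ)) (z : ℝ) : ℝ := ∑ c ∈ C, z ^ c.length

/-- growth data of a language: `la ^ m ≤ cnt L m ≤ K la ^ m` -/
structure Gr (L : Set (List ℕ)) (la K : ℝ) : Prop where
  one : 1 ≤ la
  Kone : 1 ≤ K
  lo : ∀ m : ℕ, la ^ m ≤ (cnt L m : ℝ)
  hi : ∀ m : ℕ, (cnt L m : ℝ) ≤ K * la ^ m

/-! ### the decision procedure -/

/-- decidable form of unique factorisation -/
def UDX (C : List (List ℕ)) : Prop :=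
  ∀ i < D0 C + 3, ∀ j < D0 C + 3, ∀ l1 ∈ pw C i, ∀ l2 ∈ pw C j, l1.flatten = l2.flatten → l1 = l2

/-- decidable form of: all products are in the language -/
def PrdOK (x : Inp) (C : List (List ℕ)) : Prop := ∀ j < NN x + 1, ∀ l ∈ pw C j, l.flatten ∈ LX x

/-- the inequality `∑ (b/a)^|c| + k (b/a)^(M+1) < 1` -/
def Ineq (a b k M : ℕ) (C : List (List ℕ)) : Prop :=
  (C.map fun c => b ^ c.length * a ^ (M + 1 - c.length)).sum + k * b ^ (M + 1) < a ^ (M + 1)

/-- `B` certifies a positive answer -/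
def PosP (x : Inp) (k B : ℕ) : Prop :=
  ∃ C ∈ subs (wdLe x.1 B), C.length < k + 1 ∧ [] ∉ C ∧ UDX C ∧
    ∀ w ∈ wdLe x.1 (KK x C), (w ∈ LX x ↔ FacX C w)

/-- the main certificate of a negative answer -/
def NegM (x : Inp) (k M a b n : ℕ) (u : List ℕ) : Prop :=
  b < a ∧ 0 < n ∧ u ∈ LX x ∧ a ^ n ≤ cl x u n * b ^ n ∧
    ∀ C ∈ subs (wdLe x.1 M), C.length < k + 1 → UDX C → PrdOK x C → Ineq a b k M C

/-- certificates of a negative answer -/
def NegP (x : Inp) (k M a b n : ℕ) (u w v : List ℕ) : Prop :=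
  NegM x k M a b n u ∨ (u ++ w ++ v ∈ LX x ∧ w ∉ LX x) ∨
    (u ∈ LX x ∧ v ∈ LX x ∧ ∀ s ∈ wdLe x.1 (NN x), u ++ s ++ v ∉ LX x) ∨
    (k = 0 ∧ [a] ∈ LX x) ∨ [] ∉ LX x

/-- the language is generated by a code with at most `k` words -/
def Gen (L : Set (List ℕ)) (k : ℕ) : Prop :=
  ∃ C : Finset (List ℕ), UD C ∧ C.card ≤ k ∧ L = Fac C

/-- certificates are coded by tuples ` ((B, M), (a, b, n)), (u, w, v)` -/
abbrev Cer : Type := ((ℕ × ℕ) × (ℕ × ℕ × ℕ)) × (List ℕ × List ℕ × List ℕ)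

/-- positive certificate -/
def CPos (x : Inp) (k : ℕ) (t : Cer) : Prop := PosP x k t.1.1.1

/-- negative certificate -/
def CNeg (x : Inp) (k : ℕ) (t : Cer) : Prop :=
  NegP x k t.1.1.2 t.1.2.1 t.1.2.2.1 t.1.2.2.2 t.2.1 t.2.2.1 t.2.2.2

end Pool.Agent.Helper37.KW
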