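import Pool.Agent.Helper37.KW.St

set_option autoImplicit false

namespace Pool.Agent.Helper37.KW

open Filter Topology

theorem cho_cont (s : List ℕ) (k M : ℕ) :
    Continuous fun z : ℝ => (s.map fun n => z ^ n).sum + k * z ^ (M + 1) := by
  refine Continuous.add ?_ (by fun_prop)
  induction s with
  | nil => simpa using continuous_const
  | cons n s ih =>
    simp only [List.map_cons, List.sum_cons]
    exact (continuous_pow n).add ih

theorem hCHO : StCHO := by
  intro la k M S hla hS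
  have hla0 : 0 < la := by linarith
  have hinv1 : la⁻¹ < 1 := inv_lt_one_of_one_lt₀ hla
  have hinv0 : 0 < la⁻¹ := inv_pos.2 hla0
  have h1 : ∀ᶠ z : ℝ in 𝓝 la⁻¹, ∀ s ∈ S, (s.map fun n => z ^ n).sum + k * z ^ (M + 1) < 1 := by
    rw [Filter.eventually_all_finset]
    intro s hs
    exact (cho_cont s k M).continuousAt.eventually_lt continuousAt_const (hS s hs)
  have h2 : ∀ᶠ z : ℝ in 𝓝 la⁻¹, z < 1 := eventually_lt_nhds hinv1
  obtain ⟨ε, hε, hball⟩ := Metric.eventually_nhds_iff.1 (h1.and h2)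
  obtain ⟨q, hq1, hq2⟩ := exists_rat_btwn (lt_add_of_pos_right (la⁻¹ : ℝ) hε)
  have hqd : dist (q : ℝ) la⁻¹ < ε := by
    rw [Real.dist_eq, abs_of_pos (by linarith)]
    linarith
  obtain ⟨hA, hB⟩ := hball hqd
  have hq0 : (0 : ℝ) < q := by linarith
  have hq0' : 0 < q := by exact_mod_cast hq0
  have hnum : 0 < q.num := Rat.num_pos.2 hq0'
  have hcast : ((q.num.toNat : ℕ) : ℝ) / (q.den : ℝ) = (q : ℝ) := by
    have h3 : ((q.num.toNat : ℕ) : ℝ) = ((q.num : ℤ) : ℝ) := by
      have : ((q.num.toNat : ℕ) : ℤ) = q.num := Int.toNat_of_nonneg hnum.le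
      exact_mod_cast this
    rw [h3]
    exact (Rat.cast_def q).symm
  have hden : (0 : ℝ) < (q.den : ℝ) := by exact_mod_cast q.den_pos
  have hnum' : (0 : ℝ) < ((q.num.toNat : ℕ) : ℝ) := by
    have h4 := mul_pos hq0 hden
    rw [← hcast] at h4
    have h5 : ((q.num.toNat : ℕ) : ℝ) / (q.den : ℝ) * (q.den : ℝ) = (q.num.toNat : ℝ) := by
      field_simp
    rwa [h5] at h4
  refine ⟨q.den, q.num.toNat, by exact_mod_cast hnum', ?_, ?_, ?_⟩
  · have h4 : ((q.num.toNat : ℕ) : ℝ) / (q.den : ℝ) < 1 := by rw [hcast]; exact hB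
    rw [div_lt_one hden] at h4
    exact_mod_cast h4
  · have h5 : (q.den : ℝ) / ((q.num.toNat : ℕ) : ℝ) = (q : ℝ)⁻¹ := by
      rw [← hcast, inv_div]
    rw [h5]
    rw [inv_lt_comm₀ hq0 hla0]
    exact hq1
  · intro s hs
    rw [hcast]
    exact hA s hs

end Pool.Agent.Helper37.KW
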