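import Pool.Agent.Helper37.KW.St

/-!
# Project KW, module CL: closed walk words
-/

set_option autoImplicit false

namespace Pool.Agent.Helper37.KW

open Pool.Agent.Helper31.BD Pool.Agent.Helper84.LD

theorem cl_mul_le (x : Inp) (u : List ℕ) (m n : ℕ) : cl x u m * cl x u n ≤ cl x u (m + n) := by
  rw [cl_eq, cl_eq, cl_eq, ← Finset.card_product]
  refine Finset.card_le_card_of_injOn (fun p => p.1 ++ p.2) ?_ ?_
  · rintro ⟨d, d'⟩ hp
    rw [Finset.mem_coe, Finset.mem_product] at hp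
    obtain ⟨h1, h2⟩ := hp
    obtain ⟨l1, a1, s1⟩ := mem_cl.1 h1
    obtain ⟨l2, a2, s2⟩ := mem_cl.1 h2
    rw [Finset.mem_coe]
    refine mem_cl.2 ⟨?_, lt_app a1 a2, ?_⟩
    · simp only [List.length_append]
      rw [l1, l2]
    · have h3 := st_app (x := x) s1 d'
      rw [List.append_assoc] at h3
      exact h3.trans s2
  · rintro ⟨d, d'⟩ hp ⟨e, e'⟩ hq hpq
    rw [Finset.mem_coe, Finset.mem_product] at hp hq
    obtain ⟨l1, -, -⟩ := mem_cl.1 hp.1
    obtain ⟨l2, -, -⟩ := mem_cl.1 hq.1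
    obtain ⟨h3, h4⟩ := List.append_inj hpq (l1.trans l2.symm)
    exact Prod.ext h3 h4

theorem one_le_cl_zero (x : Inp) (u : List ℕ) : 1 ≤ cl x u 0 := by
  rw [cl_eq]
  refine Finset.card_pos.2 ⟨[], mem_cl.2 ⟨rfl, ?_, ?_⟩⟩
  · intro a ha
    simp at ha
  · rw [List.append_nil]

theorem cl_pow_le (x : Inp) (u : List ℕ) (n j : ℕ) : (cl x u n) ^ j ≤ cl x u (n * j) := by
  induction j with
  | zero => simpa using one_le_cl_zero x u
  | succ j ih =>
    rw [pow_succ, Nat.mul_succ]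
    exact (Nat.mul_le_mul_right _ ih).trans (cl_mul_le x u (n * j) n)

theorem cl_le_cnt (x : Inp) (u : List ℕ) (hu : u ∈ LX x) (hf : Fct (LX x)) (n : ℕ) :
    cl x u n ≤ cnt (LX x) n := by
  rw [cl_eq]
  refine card_le_cnt (N := x.1) (fun w hw => LX_lt hw) n _ ?_
  intro d hd
  obtain ⟨l1, a1, s1⟩ := mem_cl.1 hd
  refine ⟨?_, l1⟩
  exact fct_right hf (mem_LX_of_st s1.symm hu (lt_app (LX_lt hu) a1))

theorem hCL : StCL := by
  intro x u hu hf
  refine ⟨cl_mul_le x u, cl_le_cnt x u hu hf, fun n j => ?_⟩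
  exact (cl_pow_le x u n j).trans (cl_le_cnt x u hu hf (n * j))

end Pool.Agent.Helper37.KW
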