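import Pool.Agent.Helper37.KW.St

/-! # Project KW, module CM -/

set_option autoImplicit false

namespace Pool.Agent.Helper37.KW

open Pool.Agent.Helper31.BD Pool.Agent.Helper84.LD

theorem hCM : StCM := by
  intro L N hN hF m n
  unfold cnt
  rw [← Set.ncard_prod]
  refine Set.ncard_le_ncard_of_injOn (fun w => (w.take m, w.drop m)) ?_ ?_
    ((fin_wds hN m).prod (fin_wds hN n))
  · rintro w ⟨hw, hl⟩
    have h1 : w.take m ++ w.drop m ∈ L := by rw [List.take_append_drop]; exact hw
    refine Set.mem_prod.2 ⟨⟨fct_left hF h1, ?_⟩, ⟨fct_right hF h1, ?_⟩⟩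
    · show (w.take m).length = m
      rw [List.length_take, hl]; omega
    · show (w.drop m).length = n
      rw [List.length_drop, hl]; omega
  · rintro w _ w' _ h
    have h1 : w.take m = w'.take m := congrArg Prod.fst h
    have h2 : w.drop m = w'.drop m := congrArg Prod.snd h
    rw [← List.take_append_drop m w, ← List.take_append_drop m w', h1, h2]

end Pool.Agent.Helper37.KW
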