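import Pool.Agent.Helper37.KW.St

set_option autoImplicit false

namespace Pool.Agent.Helper37.KW

open Pool.Agent.Helper31.BD Pool.Agent.Helper84.LD

theorem hCM1 (h1 : StGAP) (h2 : StCHO) (h3 : StINE) (h4 : StKU) (h5 : StENT) (h6 : StUD)
    (h7 : StPRD) : StCM1 := by
  classical
  intro x k u la K hF hT hG hu hcl hla hN
  have hla0 : 0 < la := by linarith
  have hz0 : 0 < la⁻¹ := inv_pos.2 hla0
  have hz1 : la⁻¹ < 1 := inv_lt_one_of_one_lt₀ hla
  obtain ⟨δ, hδ, hgap⟩ := h1 la k hla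
  obtain ⟨M, hM⟩ := exists_pow_lt_of_lt_one (show (0 : ℝ) < δ / (k + 1) by positivity) hz1
  have hk0 : (0 : ℝ) ≤ k := Nat.cast_nonneg _
  have hkM : (k : ℝ) * (la⁻¹) ^ (M + 1) < δ := by
    have e1 : (la⁻¹) ^ (M + 1) ≤ (la⁻¹) ^ M := pow_le_pow_of_le_one hz0.le hz1.le (by omega)
    have e2 : (la⁻¹) ^ M * (k + 1) < δ := by
      rwa [lt_div_iff₀ (by positivity)] at hM
    have e3 : 0 < (la⁻¹) ^ M := pow_pos hz0 _
    nlinarith
  -- the lists of lengths
  set S : Finset (List ℕ) := (((subs (wdLe x.1 M)).filter fun C =>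
    C.length < k + 1 ∧ UDX C ∧ PrdOK x C).map fun C => C.map List.length).toFinset with hS
  have key : ∀ C ∈ subs (wdLe x.1 M), C.length < k + 1 → UDX C → PrdOK x C →
      ((C.map List.length).map fun n => (la⁻¹) ^ n).sum + k * (la⁻¹) ^ (M + 1) < 1 := by
    intro C hC hlen hUD hP
    obtain ⟨hnd, hmem⟩ := subs_nodup _ (wdLe_nodup _ _) C hC
    have hUD' := (h6 C).1 hUD
    have hP' := (h7 x C).1 hP
    have hprod : ∀ l : List (List ℕ), Over C.toFinset l → l.flatten ∈ LX x := by
      intro l hl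
      exact hP' l fun c hc => List.mem_toFinset.1 (hl c hc)
    have hle : wt C.toFinset la⁻¹ ≤ 1 :=
      h4 (LX x) x.1 la K (fun w hw => LX_lt hw) hG C.toFinset hUD' hprod
    have hne : wt C.toFinset la⁻¹ ≠ 1 := by
      intro heq
      apply hN
      refine ⟨C.toFinset, hUD', ?_, h5 x la K hF hT hG C.toFinset hUD' hprod heq⟩
      exact (List.toFinset_card_le C).trans (by omega)
    have hwt : wt C.toFinset la⁻¹ = ((C.map List.length).map fun n => (la⁻¹) ^ n).sum := by
      unfold wt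
      rw [List.sum_toFinset _ hnd, List.map_map]
      rfl
    have hlt : ((C.map List.length).map fun n => (la⁻¹) ^ n).sum < 1 := by
      rw [← hwt]
      exact lt_of_le_of_ne hle hne
    have := hgap (C.map List.length) (by rw [List.length_map]; omega) hlt
    linarith
  obtain ⟨a, b, hb, hba, hab, hall⟩ := h2 la k M S hla (by
    intro s hs
    rw [hS, List.mem_toFinset, List.mem_map] at hs
    obtain ⟨C, hC, rfl⟩ := hs
    rw [List.mem_filter] at hC
    obtain ⟨hC1, hC2⟩ := hC
    have hC3 : C.length < k + 1 ∧ UDX C ∧ PrdOK x C := by simpa using hC2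
    exact key C hC1 hC3.1 hC3.2.1 hC3.2.2)
  have ha : 0 < a := by omega
  have ha' : (0 : ℝ) < a := by exact_mod_cast ha
  have hb' : (0 : ℝ) < b := by exact_mod_cast hb
  obtain ⟨n, hn, hcln⟩ := hcl ((a : ℝ) / b) (by positivity) hab
  refine ⟨M, a, b, n, hba, hn, hu, ?_, ?_⟩
  · rw [div_pow, div_le_iff₀ (by positivity)] at hcln
    exact_mod_cast hcln
  · intro C hC hlen hUD hP
    obtain ⟨hnd, hmem⟩ := subs_nodup _ (wdLe_nodup _ _) C hC
    rw [h3 a b k M C ha (fun c hc => by
      have := ((mem_wdLe _ _ _).1 (hmem c hc)).1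
      omega)]
    have hin : C.map List.length ∈ S := by
      rw [hS, List.mem_toFinset, List.mem_map]
      refine ⟨C, ?_, rfl⟩
      rw [List.mem_filter]
      exact ⟨hC, decide_eq_true ⟨hlen, hUD, hP⟩⟩
    have := hall _ hin
    rw [List.map_map] at this
    exact this

end Pool.Agent.Helper37.KW
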