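import Pool.Agent.Helper37.KW.St

/-!
# Project KW, module CMP: completeness of the negative certificates
-/

set_option autoImplicit false

namespace Pool.Agent.Helper37.KW

open Pool.Agent.Helper31.BD Pool.Agent.Helper84.LD

theorem cmE (l : List (List ℕ)) (h : Over ∅ l) : l = [] := by
  cases l with
  | nil => rfl
  | cons c l => exact absurd (h c (by simp)) (by simp)

theorem cmUDE : UD ∅ := by
  intro l1 l2 h1 h2 _
  rw [cmE l1 h1, cmE l2 h2]

theorem cmFacE (w : List ℕ) : w ∈ Fac ∅ ↔ w = [] := by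
  constructor
  · rintro ⟨u, v, l, hl, h⟩
    rw [cmE l hl] at h
    have h2 := congrArg List.length h
    simp only [List.length_append, List.flatten_nil, List.length_nil] at h2
    exact List.length_eq_zero_iff.1 (by omega)
  · rintro rfl
    exact nil_mem_Fac ∅

theorem cmRepLen (d : List ℕ) (n : ℕ) : (List.replicate n d).flatten.length = n * d.length := by
  induction n with
  | zero => simp
  | succ n ih =>
    rw [List.replicate_succ, List.flatten_cons, List.length_append, ih]
    ring

theorem cmUD1 (d : List ℕ) (hd : d ≠ []) : UD {d} := by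
  intro l1 l2 h1 h2 h
  have e1 : l1 = List.replicate l1.length d :=
    List.eq_replicate_of_mem (fun c hcm => Finset.mem_singleton.1 (h1 c hcm))
  have e2 : l2 = List.replicate l2.length d :=
    List.eq_replicate_of_mem (fun c hcm => Finset.mem_singleton.1 (h2 c hcm))
  have h3 := congrArg List.length h
  rw [e1, e2, cmRepLen, cmRepLen] at h3
  have h4 : l1.length = l2.length := Nat.eq_of_mul_eq_mul_right (List.length_pos_iff.2 hd) h3
  rw [e1, e2, h4]

theorem hCMP (h1 : StINF) (h2 : StGR) (h3 : StZER) (h4 : StCM1) : StCMP := by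
  intro x k hn
  by_cases h0 : [] ∈ LX x
  swap
  · exact ⟨0, 0, 0, 0, [], [], [], Or.inr (Or.inr (Or.inr (Or.inr h0)))⟩
  by_cases hF : Fct (LX x)
  swap
  · unfold Fct at hF
    push Not at hF
    obtain ⟨u, w, v, hu, hw⟩ := hF
    exact ⟨0, 0, 0, 0, u, w, v, Or.inr (Or.inl ⟨hu, hw⟩)⟩
  by_cases hT : Trn (LX x)
  swap
  · unfold Trn at hT
    push Not at hT
    obtain ⟨u, hu, v, hv, hw⟩ := hT
    exact ⟨0, 0, 0, 0, u, [], v, Or.inr (Or.inr (Or.inl ⟨hu, hv, fun s _ => hw s⟩))⟩
  by_cases ht : ∃ t ∈ LX x, t ≠ []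
  swap
  · exfalso
    push Not at ht
    apply hn
    refine ⟨∅, cmUDE, by simp, ?_⟩
    ext w
    rw [cmFacE]
    constructor
    · exact ht w
    · rintro rfl
      exact h0
  rcases Nat.eq_zero_or_pos k with hk | hk
  · obtain ⟨t, ht, htn⟩ := ht
    cases t with
    | nil => exact absurd rfl htn
    | cons a t =>
      exact ⟨0, a, 0, 0, [], [], [], Or.inr (Or.inr (Or.inr (Or.inl
        ⟨hk, fct_left hF (v := t) (by simpa using ht)⟩)))⟩
  obtain ⟨u, la, K, hR, hG, hcl, hr⟩ := h2 x hF hT h0 (h1 x hF hT ht)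
  rcases eq_or_lt_of_le hG.one with hla | hla
  · exfalso
    have hc : ∀ n, cl x u n ≤ 1 := by
      intro n
      have := hcl n
      rw [← hla, one_pow] at this
      exact_mod_cast this
    obtain ⟨d, hd, hL⟩ := h3 x u hF hR hc ht
    exact hn ⟨{d}, cmUD1 d hd, by rw [Finset.card_singleton]; exact hk, hL⟩
  · obtain ⟨M, a, b, n, hM⟩ := h4 x k u la K hF hT hG hR.1 hr hla hn
    exact ⟨M, a, b, n, u, [], [], Or.inl hM⟩

end Pool.Agent.Helper37.KW
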