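import Pool.Agent.Helper37.KW.St

set_option autoImplicit false

namespace Pool.Agent.Helper37.KW

open Pool.Agent.Helper31.BD Pool.Agent.Helper84.LD

open Classical in
/-- one step of the search -/
noncomputable def DECs (q : Inp × ℕ) (m : ℕ) : Option Bool :=
  (Encodable.decode (α := Cer) m).bind fun t =>
    if CPos q.1 q.2 t then some true else if CNeg q.1 q.2 t then some false else none

theorem DECs_primrec (h1 : StP3) : Primrec₂ DECs := by
  classical
  have hp : PrimrecPred fun r : ((Inp × ℕ) × ℕ) × Cer => CPos r.1.1.1 r.1.1.2 r.2 :=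
    h1.1.comp (Primrec.pair (Primrec.fst.comp Primrec.fst) Primrec.snd)
  have hn : PrimrecPred fun r : ((Inp × ℕ) × ℕ) × Cer => CNeg r.1.1.1 r.1.1.2 r.2 :=
    h1.2.comp (Primrec.pair (Primrec.fst.comp Primrec.fst) Primrec.snd)
  unfold DECs
  refine Primrec.option_bind (Primrec.decode.comp Primrec.snd) ?_
  refine Primrec.ite hp (Primrec.const (some true)) ?_
  exact Primrec.ite hn (Primrec.const (some false)) (Primrec.const none)

theorem DECs_pos (h2 : StPOS) {q : Inp × ℕ} {m : ℕ} (h : DECs q m = some true) :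
    Gen (LX q.1) q.2 := by
  unfold DECs at h
  obtain ⟨t, ht, h⟩ := Option.bind_eq_some_iff.1 h
  by_cases hp : CPos q.1 q.2 t
  · exact (h2 q.1 q.2).1 ⟨_, hp⟩
  · rw [if_neg hp] at h
    by_cases hn : CNeg q.1 q.2 t
    · rw [if_pos hn] at h
      simp at h
    · rw [if_neg hn] at h
      simp at h

theorem DECs_neg (h4 : StSND) {q : Inp × ℕ} {m : ℕ} (h : DECs q m = some false) :
    ¬ Gen (LX q.1) q.2 := by
  unfold DECs at h
  obtain ⟨t, ht, h⟩ := Option.bind_eq_some_iff.1 h
  by_cases hp : CPos q.1 q.2 t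
  · rw [if_pos hp] at h
    simp at h
  · rw [if_neg hp] at h
    by_cases hn : CNeg q.1 q.2 t
    · exact h4 q.1 q.2 _ _ _ _ _ _ _ hn
    · rw [if_neg hn] at h
      simp at h

theorem DECs_ex (h2 : StPOS) (h3 : StCMP) (q : Inp × ℕ) : ∃ m b, b ∈ DECs q m := by
  by_cases hg : Gen (LX q.1) q.2
  · obtain ⟨B, hB⟩ := (h2 q.1 q.2).2 hg
    refine ⟨Encodable.encode ((((B, 0), (0, 0, 0)), ([], [], [])) : Cer), true, ?_⟩
    unfold DECs
    rw [Encodable.encodek]
    have hp : CPos q.1 q.2 ((((B, 0), (0, 0, 0)), ([], [], [])) : Cer) := hB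
    simp [hp]
  · obtain ⟨M, a, b, n, u, w, v, h⟩ := h3 q.1 q.2 hg
    refine ⟨Encodable.encode ((((0, M), (a, b, n)), (u, w, v)) : Cer), ?_⟩
    unfold DECs
    rw [Encodable.encodek]
    by_cases hp : CPos q.1 q.2 ((((0, M), (a, b, n)), (u, w, v)) : Cer)
    · exact ⟨true, by simp [hp]⟩
    · have hn : CNeg q.1 q.2 ((((0, M), (a, b, n)), (u, w, v)) : Cer) := h
      exact ⟨false, by simp [hp, hn]⟩

theorem hDEC (h1 : StP3) (h2 : StPOS) (h3 : StCMP) (h4 : StSND) : StDEC := by
  have hdom : ∀ q : Inp × ℕ, (Nat.rfindOpt (DECs q)).Dom := fun q =>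
    Nat.rfindOpt_dom.2 (DECs_ex h2 h3 q)
  have hpart : Partrec fun q : Inp × ℕ => Nat.rfindOpt (DECs q) :=
    Partrec.rfindOpt (DECs_primrec h1).to_comp
  refine ⟨fun q => (Nat.rfindOpt (DECs q)).get (hdom q), ?_, ?_⟩
  · refine Partrec.of_eq hpart fun q => ?_
    exact (Part.some_get (hdom q)).symm
  · intro x k
    obtain ⟨m, hm⟩ := Nat.rfindOpt_spec (Part.get_mem (hdom (x, k)))
    constructor
    · intro hf
      have hf' : (Nat.rfindOpt (DECs (x, k))).get (hdom (x, k)) = true := hf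
      rw [hf'] at hm
      exact DECs_pos (q := (x, k)) h2 hm
    · intro hg
      cases hb : (Nat.rfindOpt (DECs (x, k))).get (hdom (x, k)) with
      | true => exact hb
      | false =>
        rw [hb] at hm
        exact absurd hg (DECs_neg (q := (x, k)) h4 hm)

end Pool.Agent.Helper37.KW
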