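import Pool.Agent.Helper37.KW.St

/-!
# Project KW (MP_93aa28_lc): module ENT
-/

set_option autoImplicit false

namespace Pool.Agent.Helper37.KW

open Pool.Agent.Helper31.BD Pool.Agent.Helper84.LD

/-- products of `j` words -/
def ent_F (C : Finset (List ℕ)) : ℕ → Finset (List ℕ)
  | 0 => {[]}
  | j + 1 => Finset.image₂ (fun c w => c ++ w) C (ent_F C j)

theorem ent_mem_F (C : Finset (List ℕ)) : ∀ (j : ℕ) (w : List ℕ),
    w ∈ ent_F C j ↔ ∃ l : List (List ℕ), Over C l ∧ l.length = j ∧ l.flatten = w := by
  intro j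
  induction j with
  | zero =>
    intro w
    simp only [ent_F, Finset.mem_singleton]
    constructor
    · rintro rfl
      exact ⟨[], over_nil C, rfl, rfl⟩
    · rintro ⟨l, _, hl, rfl⟩
      rw [List.length_eq_zero_iff.1 hl]
      rfl
  | succ j ih =>
    intro w
    simp only [ent_F, Finset.mem_image₂]
    constructor
    · rintro ⟨c, hc, v, hv, rfl⟩
      obtain ⟨l, hl, hj, rfl⟩ := (ih v).1 hv
      refine ⟨c :: l, ?_, by simp [hj], by simp⟩
      intro d hd
      rcases List.mem_cons.1 hd with rfl | h
      · exact hc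
      · exact hl d h
    · rintro ⟨l, hl, hj, rfl⟩
      cases l with
      | nil => simp at hj
      | cons c l =>
        refine ⟨c, hl c (by simp), l.flatten, (ih _).2 ⟨l, fun d hd => hl d (by simp [hd]), by
          simpa using hj, rfl⟩, by simp⟩

theorem ent_sum_F (C : Finset (List ℕ)) (hC : UD C) (z : ℝ) : ∀ j : ℕ,
    ∑ w ∈ ent_F C j, z ^ w.length = (wt C z) ^ j := by
  intro j
  induction j with
  | zero => simp [ent_F]
  | succ j ih =>
    have hinj : Set.InjOn (fun q : List ℕ × List ℕ => q.1 ++ q.2) ((C ×ˢ ent_F C j : Finset _) : Set (List ℕ × List ℕ)) := by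
      rintro ⟨c, v⟩ hcv ⟨c', v'⟩ hcv' h
      simp only [Finset.coe_product, Set.mem_prod, Finset.mem_coe] at hcv hcv'
      obtain ⟨l, hl, _, rfl⟩ := (ent_mem_F C j v).1 hcv.2
      obtain ⟨l', hl', _, rfl⟩ := (ent_mem_F C j v').1 hcv'.2
      have h1 : (c :: l).flatten = (c' :: l').flatten := by simpa using h
      have h2 := hC (c :: l) (c' :: l')
        (fun d hd => by
          rcases List.mem_cons.1 hd with rfl | h
          · exact hcv.1
          · exact hl d h)
        (fun d hd => by
          rcases List.mem_cons.1 hd with rfl | h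
          · exact hcv'.1
          · exact hl' d h) h1
      have h3 := List.cons_eq_cons.1 h2
      rw [h3.1, h3.2]
    have h1 : ent_F C (j + 1) = (C ×ˢ ent_F C j).image (fun q : List ℕ × List ℕ => q.1 ++ q.2) := by
      simp only [ent_F, Finset.image₂]
      rfl
    rw [h1, Finset.sum_image hinj, Finset.sum_product, pow_succ', ← ih, wt, Finset.sum_mul]
    refine Finset.sum_congr rfl fun c _ => ?_
    rw [Finset.mul_sum]
    refine Finset.sum_congr rfl fun v _ => ?_
    simp only [List.length_append, pow_add]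

theorem ent_disj (C : Finset (List ℕ)) (hC : UD C) {i j : ℕ} (hij : i ≠ j) :
    Disjoint (ent_F C i) (ent_F C j) := by
  rw [Finset.disjoint_left]
  intro w hi hj
  obtain ⟨l, hl, h1, h2⟩ := (ent_mem_F C i w).1 hi
  obtain ⟨l', hl', h1', h2'⟩ := (ent_mem_F C j w).1 hj
  have := hC l l' hl hl' (h2.trans h2'.symm)
  exact hij (by rw [← h1, ← h1', this])

theorem ent_len (C : Finset (List ℕ)) (M : ℕ) (hM : ∀ c ∈ C, c.length ≤ M) : ∀ (j : ℕ),
    ∀ w ∈ ent_F C j, w.length ≤ j * M := by
  intro j
  induction j with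
  | zero => intro w hw; simp only [ent_F, Finset.mem_singleton] at hw; simp [hw]
  | succ j ih =>
    intro w hw
    simp only [ent_F, Finset.mem_image₂] at hw
    obtain ⟨c, hc, v, hv, rfl⟩ := hw
    have h1 := hM c hc
    have h2 := ih v hv
    rw [List.length_append, Nat.succ_mul]
    omega

open Classical in
theorem hENT (h1 : StTS) : StENT := by
  intro x la K hF hT hG C hC hP hs
  set L := LX x with hL
  have hlet : ∀ w ∈ L, ∀ a ∈ w, a < x.1 := fun w hw => LX_lt hw
  have hsub : Fac C ⊆ L := by
    rintro w ⟨u, v, l, hl, h⟩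
    exact hF u w v (by rw [h]; exact hP l hl)
  refine Set.Subset.antisymm ?_ hsub
  intro u0 hu0
  by_contra hnot
  have hla : 0 < la := lt_of_lt_of_le one_pos hG.one
  -- words of the submonoid of given length
  set B : ℕ → Finset (List ℕ) := fun i => (FL x.1 i).toFinset.filter
    (fun w => ∃ l : List (List ℕ), Over C l ∧ l.flatten = w) with hB
  have hBm : ∀ i w, w ∈ B i ↔ w.length = i ∧ ∃ l : List (List ℕ), Over C l ∧ l.flatten = w := by
    intro i w
    rw [hB]
    simp only [Finset.mem_filter, List.mem_toFinset, mem_FL]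
    constructor
    · rintro ⟨⟨ha, _⟩, hc⟩
      exact ⟨ha, hc⟩
    · rintro ⟨ha, l, hl, rfl⟩
      exact ⟨⟨ha, hlet _ (hP l hl)⟩, l, hl, rfl⟩
  -- words of the language of given length
  set Wd : ℕ → Finset (List ℕ) := fun m => (fin_wds hlet m).toFinset with hWd
  have hWm : ∀ m w, w ∈ Wd m ↔ w ∈ L ∧ w.length = m := by
    intro m w
    rw [hWd]
    simp
  have hWc : ∀ m, (Wd m).card = cnt L m := by
    intro m
    rw [hWd]
    simp only [cnt]
    rw [Set.ncard_eq_toFinset_card _ (fin_wds hlet m)]
  -- connecting words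
  have hcon : ∀ z t : List ℕ, z ∈ L → t ∈ L → ∃ w w' : List ℕ, w.length ≤ NN x ∧
      w'.length ≤ NN x ∧ z ++ w ++ u0 ++ w' ++ t ∈ L := by
    intro z t hz ht
    obtain ⟨w, _, hw, hw2⟩ := h1 x z u0 (hT z hz u0 hu0)
    obtain ⟨w', _, hw', hw2'⟩ := h1 x (z ++ w ++ u0) t (hT _ hw2 t ht)
    exact ⟨w, w', hw, hw', hw2'⟩
  choose! w w' hw hw' hww using hcon
  -- counting
  have hcount : ∀ n : ℕ, ∑ i ∈ Finset.range (n + 1), (B i).card * cnt L (n - i) ≤
      (NN x + u0.length) * ∑ l ∈ Finset.range (2 * NN x + 1), cnt L (n + u0.length + l) := by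
    intro n
    set P : Finset (Σ _ : ℕ, List ℕ × List ℕ) := (Finset.range (n + 1)).sigma
      (fun i => B i ×ˢ Wd (n - i)) with hPd
    have hPc : P.card = ∑ i ∈ Finset.range (n + 1), (B i).card * cnt L (n - i) := by
      rw [hPd, Finset.card_sigma]
      refine Finset.sum_congr rfl fun i _ => ?_
      rw [Finset.card_product, hWc]
    set W : Finset (List ℕ) := (Finset.range (2 * NN x + 1)).biUnion
      (fun l => Wd (n + u0.length + l)) with hWW
    have hWWc : W.card ≤ ∑ l ∈ Finset.range (2 * NN x + 1), cnt L (n + u0.length + l) := by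
      refine Finset.card_biUnion_le.trans (le_of_eq ?_)
      exact Finset.sum_congr rfl fun l _ => hWc _
    rw [← hPc]
    have hPm : ∀ q : (Σ _ : ℕ, List ℕ × List ℕ), q ∈ P ↔ q.1 ≤ n ∧ q.2.1 ∈ B q.1 ∧ q.2.2 ∈ Wd (n - q.1) := by
      intro q
      rw [hPd, Finset.mem_sigma, Finset.mem_product, Finset.mem_range, Nat.lt_succ_iff]
    set Φ : (Σ _ : ℕ, List ℕ × List ℕ) → List ℕ := fun q =>
      q.2.1 ++ w q.2.1 q.2.2 ++ u0 ++ w' q.2.1 q.2.2 ++ q.2.2 with hΦ
    have hzL : ∀ i z, z ∈ B i → z ∈ L := by
      intro i z hz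
      obtain ⟨_, l, hl, rfl⟩ := (hBm i z).1 hz
      exact hP l hl
    have hmaps : ∀ q ∈ P, Φ q ∈ W := by
      intro q hq
      obtain ⟨hq1, hq2, hq3⟩ := (hPm q).1 hq
      have hz := hzL _ _ hq2
      have ht := ((hWm _ _).1 hq3).1
      have hzl := ((hBm _ _).1 hq2).1
      have htl := ((hWm _ _).1 hq3).2
      rw [hWW, Finset.mem_biUnion]
      refine ⟨(w q.2.1 q.2.2).length + (w' q.2.1 q.2.2).length, ?_, ?_⟩
      · rw [Finset.mem_range]
        have a1 := hw _ _ hz ht
        have a2 := hw' _ _ hz ht
        omega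
      · rw [hWm]
        refine ⟨hww _ _ hz ht, ?_⟩
        rw [hΦ]
        simp only [List.length_append]
        omega
    refine (Finset.card_le_mul_card_image_of_maps_to hmaps (NN x + u0.length) ?_).trans
      (Nat.mul_le_mul_left _ hWWc)
    intro V hV
    by_cases hex : ∃ e, u0 <:+: V.take e
    · set e := Nat.find hex with he
      have hespec : u0 <:+: V.take e := Nat.find_spec hex
      have hemin : ∀ m, u0 <:+: V.take m → e ≤ m := fun m hm => Nat.find_min' hex hm
      have hcard : (Finset.Ico (e - (NN x + u0.length)) e).card ≤ NN x + u0.length := by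
        rw [Nat.card_Ico]; omega
      refine le_trans ?_ hcard
      refine Finset.card_le_card_of_injOn (fun q => q.1) ?_ ?_
      · intro q hq
        rw [Finset.coe_filter] at hq
        obtain ⟨hqP, hqV⟩ := hq
        obtain ⟨hq1, hq2, hq3⟩ := (hPm q).1 hqP
        have hz := hzL _ _ hq2
        have ht := ((hWm _ _).1 hq3).1
        have hzl := ((hBm _ _).1 hq2).1
        have hl1 := hw _ _ hz ht
        simp only [Finset.coe_Ico, Set.mem_Ico]
        have hVt : V.take (q.1 + (w q.2.1 q.2.2).length + u0.length) =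
            q.2.1 ++ w q.2.1 q.2.2 ++ u0 := by
          rw [← hqV, hΦ]
          simp only [List.append_assoc]
          rw [← List.append_assoc, ← List.append_assoc]
          rw [List.take_left' (by simp only [List.length_append]; omega)]
          simp only [List.append_assoc]
        have hup : e ≤ q.1 + (w q.2.1 q.2.2).length + u0.length := by
          refine hemin _ ?_
          rw [hVt]
          exact (List.suffix_append _ _).isInfix
        have hlow : q.1 < e := by
          by_contra hcon
          push Not at hcon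
          have hVi : V.take q.1 = q.2.1 := by
            rw [← hqV, hΦ]
            simp only [List.append_assoc]
            rw [List.take_left' hzl]
          have h3 : u0 <:+: q.2.1 := by
            rw [← hVi]
            refine hespec.trans ?_
            exact (List.take_prefix_take_left hcon).isInfix
          obtain ⟨_, l, hl, hlz⟩ := (hBm _ _).1 hq2
          obtain ⟨s, r, hsr⟩ := h3
          exact hnot ⟨s, r, l, hl, by rw [hsr, hlz]⟩
        omega
      · intro q hq q' hq' hqq
        rw [Finset.coe_filter] at hq hq'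
        obtain ⟨hqP, hqV⟩ := hq
        obtain ⟨hqP', hqV'⟩ := hq'
        obtain ⟨hq1, hq2, hq3⟩ := (hPm q).1 hqP
        obtain ⟨hq1', hq2', hq3'⟩ := (hPm q').1 hqP'
        have hzl := ((hBm _ _).1 hq2).1
        have htl := ((hWm _ _).1 hq3).2
        have hzl' := ((hBm _ _).1 hq2').1
        have htl' := ((hWm _ _).1 hq3').2
        obtain ⟨i, z, t⟩ := q
        obtain ⟨i', z', t'⟩ := q'
        simp only at hqq hzl htl hzl' htl' hq1 hq1'
        subst hqq
        have e1 : z = V.take i := by
          rw [← hqV, hΦ]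
          simp only [List.append_assoc]
          rw [List.take_left' hzl]
        have e1' : z' = V.take i := by
          rw [← hqV', hΦ]
          simp only [List.append_assoc]
          rw [List.take_left' hzl']
        have e2 : t = V.drop (V.length - (n - i)) := by
          rw [← hqV, hΦ]
          simp only
          rw [List.length_append, htl, Nat.add_sub_cancel, List.drop_left]
        have e2' : t' = V.drop (V.length - (n - i)) := by
          rw [← hqV', hΦ]
          simp only
          rw [List.length_append, htl', Nat.add_sub_cancel, List.drop_left]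
        rw [e1, e1', e2, e2']
    · -- no occurrence: the fiber is empty
      have hemp : P.filter (fun q => Φ q = V) = ∅ := by
        rw [Finset.filter_eq_empty_iff]
        intro q hq hqV
        refine hex ⟨V.length, ?_⟩
        rw [List.take_length, ← hqV, hΦ]
        refine ⟨q.2.1 ++ w q.2.1 q.2.2, w' q.2.1 q.2.2 ++ q.2.2, ?_⟩
        simp only [List.append_assoc]
      rw [hemp]
      simp
  -- numbers
  set G : ℝ := (NN x + u0.length : ℕ) * ((2 * NN x + 1 : ℕ) * (K * la ^ (u0.length + 2 * NN x)))
    with hGd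
  have hK0 : 0 ≤ K := le_trans zero_le_one hG.Kone
  have hbound : ∀ n : ℕ, ∑ i ∈ Finset.range (n + 1), ((B i).card : ℝ) * (la⁻¹) ^ i ≤ G := by
    intro n
    have hc := hcount n
    have hc' : (∑ i ∈ Finset.range (n + 1), ((B i).card : ℝ) * (cnt L (n - i) : ℝ)) ≤
        ((NN x + u0.length : ℕ) : ℝ) * ∑ l ∈ Finset.range (2 * NN x + 1),
          (cnt L (n + u0.length + l) : ℝ) := by
      exact_mod_cast hc
    have hr : ∑ l ∈ Finset.range (2 * NN x + 1), (cnt L (n + u0.length + l) : ℝ) ≤
        ((2 * NN x + 1 : ℕ) : ℝ) * (K * la ^ (u0.length + 2 * NN x)) * la ^ n := by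
      have : ∀ l ∈ Finset.range (2 * NN x + 1), (cnt L (n + u0.length + l) : ℝ) ≤
          K * la ^ (u0.length + 2 * NN x) * la ^ n := by
        intro l hl
        rw [Finset.mem_range] at hl
        refine (hG.hi _).trans ?_
        rw [mul_assoc]
        refine mul_le_mul_of_nonneg_left ?_ hK0
        rw [← pow_add]
        exact pow_le_pow_right₀ hG.one (by omega)
      refine (Finset.sum_le_sum this).trans (le_of_eq ?_)
      rw [Finset.sum_const, Finset.card_range, nsmul_eq_mul]
      ring
    have hl : la ^ n * ∑ i ∈ Finset.range (n + 1), ((B i).card : ℝ) * (la⁻¹) ^ i ≤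
        ∑ i ∈ Finset.range (n + 1), ((B i).card : ℝ) * (cnt L (n - i) : ℝ) := by
      rw [Finset.mul_sum]
      refine Finset.sum_le_sum fun i hi => ?_
      rw [Finset.mem_range, Nat.lt_succ_iff] at hi
      have : la ^ n * (((B i).card : ℝ) * (la⁻¹) ^ i) = ((B i).card : ℝ) * la ^ (n - i) := by
        have h2 : la ^ n = la ^ (n - i) * la ^ i := by rw [← pow_add]; congr 1; omega
        rw [h2, inv_pow]
        have : la ^ i ≠ 0 := by positivity
        field_simp
      rw [this]
      exact mul_le_mul_of_nonneg_left (hG.lo _) (Nat.cast_nonneg _)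
    have hfin : la ^ n * ∑ i ∈ Finset.range (n + 1), ((B i).card : ℝ) * (la⁻¹) ^ i ≤
        la ^ n * G := by
      refine hl.trans (hc'.trans ?_)
      refine (mul_le_mul_of_nonneg_left hr (Nat.cast_nonneg _)).trans (le_of_eq ?_)
      rw [hGd]
      ring
    exact le_of_mul_le_mul_left hfin (by positivity)
  -- lower bound
  set M0 := C.sup List.length with hM0
  have hM : ∀ c ∈ C, c.length ≤ M0 := fun c hc => Finset.le_sup (f := List.length) hc
  have hlower : ∀ J : ℕ, (J : ℝ) + 1 ≤ ∑ i ∈ Finset.range (J * M0 + 1), ((B i).card : ℝ) * (la⁻¹) ^ i := by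
    intro J
    set S : Finset (List ℕ) := (Finset.range (J + 1)).biUnion (ent_F C) with hS
    have hS1 : ∑ v ∈ S, (la⁻¹) ^ v.length = (J : ℝ) + 1 := by
      rw [hS, Finset.sum_biUnion (fun i _ j _ hij => ent_disj C hC hij)]
      have : ∀ j ∈ Finset.range (J + 1), ∑ v ∈ ent_F C j, (la⁻¹) ^ v.length = 1 := by
        intro j _
        rw [ent_sum_F C hC, hs, one_pow]
      rw [Finset.sum_congr rfl this]
      simp
    rw [← hS1]
    have hmap : ∀ v ∈ S, v.length ∈ Finset.range (J * M0 + 1) := by
      intro v hv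
      rw [hS, Finset.mem_biUnion] at hv
      obtain ⟨j, hj, hvj⟩ := hv
      rw [Finset.mem_range] at hj ⊢
      have h2 := ent_len C M0 hM j v hvj
      have h3 : j * M0 ≤ J * M0 := Nat.mul_le_mul_right _ (by omega)
      omega
    rw [← Finset.sum_fiberwise_of_maps_to hmap]
    refine Finset.sum_le_sum fun i _ => ?_
    have h3 : ∑ v ∈ S.filter (fun v => v.length = i), (la⁻¹) ^ v.length =
        ((S.filter (fun v => v.length = i)).card : ℝ) * (la⁻¹) ^ i := by
      rw [Finset.sum_congr rfl (g := fun _ => (la⁻¹) ^ i)]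
      · rw [Finset.sum_const, nsmul_eq_mul]
      · intro v hv
        rw [(Finset.mem_filter.1 hv).2]
    rw [h3]
    refine mul_le_mul_of_nonneg_right ?_ (by positivity)
    have h4 : S.filter (fun v => v.length = i) ⊆ B i := by
      intro v hv
      obtain ⟨hvS, hvi⟩ := Finset.mem_filter.1 hv
      rw [hS, Finset.mem_biUnion] at hvS
      obtain ⟨j, _, hvj⟩ := hvS
      obtain ⟨l, hl, _, hlv⟩ := (ent_mem_F C j v).1 hvj
      exact (hBm i v).2 ⟨hvi, l, hl, hlv⟩
    exact_mod_cast Finset.card_le_card h4
  obtain ⟨J, hJ⟩ := exists_nat_gt G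
  have := (hlower J).trans (hbound (J * M0))
  linarith

end Pool.Agent.Helper37.KW
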