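import Pool.Agent.Helper37.KW.St

/-!
# Project KW, module FIN: finitely many codes
-/

set_option autoImplicit false

namespace Pool.Agent.Helper37.KW

open Pool.Agent.Helper31.BD Pool.Agent.Helper84.LD

theorem fin_exists_M (la δ : ℝ) (k : ℕ) (hla : 1 < la) (hδ : 0 < δ) :
    ∃ M : ℕ, (k : ℝ) * (la⁻¹) ^ (M + 1) < δ := by
  have h0 : 0 < la⁻¹ := inv_pos.2 (by linarith)
  have h1 : la⁻¹ < 1 := inv_lt_one_of_one_lt₀ hla
  have hk : 0 < (k : ℝ) + 1 := by positivity
  obtain ⟨n, hn⟩ := exists_pow_lt_of_lt_one (div_pos hδ hk) h1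
  refine ⟨n, ?_⟩
  have h2 : (la⁻¹) ^ (n + 1) ≤ (la⁻¹) ^ n := by
    rw [pow_succ]
    have := pow_nonneg h0.le n
    nlinarith
  have h3 : 0 ≤ (la⁻¹) ^ (n + 1) := pow_nonneg h0.le _
  have h4 : ((k : ℝ) + 1) * (la⁻¹) ^ (n + 1) < δ := by
    have := lt_of_le_of_lt h2 hn
    rw [lt_div_iff₀ hk] at this
    linarith
  nlinarith

theorem fin_wt_toList (C : Finset (List ℕ)) (z : ℝ) :
    ((C.toList.map List.length).map fun n => z ^ n).sum = wt C z := by
  unfold wt
  rw [List.map_map, ← Finset.sum_map_toList]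
  rfl

theorem fin_key (la δ : ℝ) (k M : ℕ) (hla : 1 < la)
    (hgap : ∀ s : List ℕ, s.length ≤ k →
      (s.map fun n => (la⁻¹) ^ n).sum < 1 → (s.map fun n => (la⁻¹) ^ n).sum ≤ 1 - δ)
    (hM : (k : ℝ) * (la⁻¹) ^ (M + 1) < δ) (C : Finset (List ℕ)) (hk : C.card ≤ k)
    (hw : wt C la⁻¹ = 1) : ∀ c ∈ C, c.length ≤ M := by
  have h0 : 0 < la⁻¹ := inv_pos.2 (by linarith)
  have h1 : la⁻¹ < 1 := inv_lt_one_of_one_lt₀ hla
  intro c hc
  by_contra hlen
  push Not at hlen
  set A := C.filter (fun c => c.length ≤ M) with hA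
  set B := C.filter (fun c => ¬ c.length ≤ M) with hB
  have hsum : wt A la⁻¹ + wt B la⁻¹ = wt C la⁻¹ := by
    unfold wt
    rw [hA, hB]
    exact Finset.sum_filter_add_sum_filter_not _ _ _
  have hcB : c ∈ B := by rw [hB, Finset.mem_filter]; exact ⟨hc, by omega⟩
  have hBpos : 0 < wt B la⁻¹ := by
    unfold wt
    exact Finset.sum_pos (fun d _ => pow_pos h0 _) ⟨c, hcB⟩
  have hBle : wt B la⁻¹ ≤ (k : ℝ) * (la⁻¹) ^ (M + 1) := by
    unfold wt
    have h2 : ∀ d ∈ B, (la⁻¹) ^ d.length ≤ (la⁻¹) ^ (M + 1) := by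
      intro d hd
      rw [hB, Finset.mem_filter] at hd
      exact pow_le_pow_of_le_one h0.le h1.le (by omega)
    have h3 := Finset.sum_le_card_nsmul B (fun d => (la⁻¹) ^ d.length) _ h2
    rw [nsmul_eq_mul] at h3
    refine h3.trans ?_
    have h4 : (B.card : ℝ) ≤ k := by
      exact_mod_cast (Finset.card_le_card (Finset.filter_subset _ _)).trans hk
    exact mul_le_mul_of_nonneg_right h4 (pow_nonneg h0.le _)
  have hAlt : wt A la⁻¹ < 1 := by linarith
  have hAle : wt A la⁻¹ ≤ 1 - δ := by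
    rw [← fin_wt_toList]
    apply hgap
    · rw [List.length_map, Finset.length_toList]
      exact (Finset.card_le_card (Finset.filter_subset _ _)).trans hk
    · rw [fin_wt_toList]; exact hAlt
  linarith

theorem fin_Fac_nil : Fac {([] : List ℕ)} = {([] : List ℕ)} := by
  ext w
  constructor
  · rintro ⟨u, v, l, hl, e⟩
    have h1 : l.flatten = [] := by
      rw [List.flatten_eq_nil_iff]
      intro c hc
      have := hl c hc
      simpa using this
    rw [h1] at e
    simp only [List.append_eq_nil_iff] at e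
    exact e.1.2
  · intro hw
    have hw' : w = [] := hw
    rw [hw']
    exact nil_mem_Fac _

theorem hFIN (h1 : StFT) (h2 : StINF) (h3 : StGR) (h4 : StZER) (h5 : StGAP) (h6 : StKU)
    (h7 : StKL) : StFIN := by
  intro x k hne
  by_cases hex : ∃ C : Finset (List ℕ), UD C ∧ C.card ≤ k ∧ LX x = Fac C
  swap
  · have : {C : Finset (List ℕ) | UD C ∧ C.card ≤ k ∧ LX x = Fac C} = ∅ := by
      ext C
      constructor
      · intro hC
        exact hex ⟨C, hC⟩
      · intro hC
        exact hC.elim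
    rw [this]
    exact Set.finite_empty
  obtain ⟨C0, hC0, _, hL0⟩ := hex
  have hFct : Fct (LX x) := by rw [hL0]; exact (h1 C0).1
  have hTrn : Trn (LX x) := by rw [hL0]; exact (h1 C0).2
  have hnil : [] ∈ LX x := by rw [hL0]; exact nil_mem_Fac _
  have hex2 : ∃ t ∈ LX x, t ≠ [] := by
    by_contra hcon
    push Not at hcon
    apply hne []
    rw [fin_Fac_nil]
    ext w
    constructor
    · intro hw
      exact hcon w hw
    · intro hw
      have hw' : w = [] := hw
      rw [hw']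
      exact hnil
  have hinf := h2 x hFct hTrn hex2
  obtain ⟨u, la, K, hRec, hGr, hcl, _⟩ := h3 x hFct hTrn hnil hinf
  have hla : 1 < la := by
    rcases lt_or_eq_of_le hGr.one with h | h
    · exact h
    · exfalso
      have hc1 : ∀ n, cl x u n ≤ 1 := by
        intro n
        have := hcl n
        rw [← h, one_pow] at this
        exact_mod_cast this
      obtain ⟨d, _, hd⟩ := h4 x u hFct hRec hc1 hex2
      exact hne d hd
  obtain ⟨δ, hδ, hgap⟩ := h5 la k hla
  obtain ⟨M, hM⟩ := fin_exists_M la δ k hla hδ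
  refine Set.Finite.subset ((wdLe x.1 M).toFinset.powerset.finite_toSet) ?_
  rintro C ⟨hUD, hk, hL⟩
  have hw : wt C la⁻¹ = 1 := by
    apply le_antisymm
    · refine h6 (LX x) x.1 la K (fun w hw => LX_lt hw) hGr C hUD ?_
      intro l hl
      rw [hL]
      exact flatten_mem_Fac hl
    · refine h7 C la 1 (ud_nil hUD) (by linarith) one_pos ?_
      intro j
      rw [← hL]
      exact hGr.lo _
  rw [Finset.mem_coe, Finset.mem_powerset]
  intro c hc
  rw [List.mem_toFinset, mem_wdLe]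
  refine ⟨fin_key la δ k M hla hgap hM C hk hw c hc, ?_⟩
  apply LX_lt (x := x)
  rw [hL]
  exact mem_fac_self hc

end Pool.Agent.Helper37.KW
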