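import Pool.Agent.Helper37.KW.St

/-!
# Project KW, module FT
-/

set_option autoImplicit false

namespace Pool.Agent.Helper37.KW

open Pool.Agent.Helper31.BD Pool.Agent.Helper84.LD

theorem hFT : StFT := by
  intro C
  refine ⟨fun u w v h => fac_infix h, ?_⟩
  rintro u ⟨p, q, l, hl, h1⟩ v ⟨p', q', l', hl', h2⟩
  refine ⟨q ++ p', p, q', l ++ l', over_app hl hl', ?_⟩
  rw [List.flatten_append, ← h1, ← h2]
  simp [List.append_assoc]

end Pool.Agent.Helper37.KW
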