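import Pool.Agent.Helper37.KW.St

set_option autoImplicit false

namespace Pool.Agent.Helper37.KW

private theorem gap_aux {x : ℝ} (hx0 : 0 < x) (hx1 : x < 1) (k : ℕ) : ∀ T : ℝ, 0 < T →
    ∃ δ : ℝ, 0 < δ ∧ ∀ s : List ℕ, s.length ≤ k →
      (s.map fun n => x ^ n).sum < T → (s.map fun n => x ^ n).sum ≤ T - δ := by
  induction k with
  | zero =>
    intro T hT
    refine ⟨T, hT, fun s hs _ => ?_⟩
    have : s = [] := List.length_eq_zero_iff.1 (by omega)
    subst this
    simp
  | succ k ih =>
    intro T hT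
    obtain ⟨N, hN⟩ : ∃ N : ℕ, x ^ N < T / (2 * (k + 1)) :=
      exists_pow_lt_of_lt_one (by positivity) hx1
    have hN' : (k + 1) * x ^ N ≤ T / 2 := by
      rw [lt_div_iff₀ (by positivity)] at hN
      nlinarith
    have hch : ∀ n : ℕ, ∃ δ : ℝ, 0 < δ ∧ (x ^ n < T → ∀ s : List ℕ, s.length ≤ k →
        (s.map fun n => x ^ n).sum < T - x ^ n → (s.map fun n => x ^ n).sum ≤ T - x ^ n - δ) := by
      intro n
      by_cases h : x ^ n < T
      · obtain ⟨δ, h1, h2⟩ := ih (T - x ^ n) (by linarith)
        exact ⟨δ, h1, fun _ => h2⟩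
      · exact ⟨1, one_pos, fun h' => absurd h' h⟩
    choose dl hdl hdl' using hch
    obtain ⟨δ, hδ, hδT, hδn⟩ : ∃ δ : ℝ, 0 < δ ∧ δ ≤ T / 2 ∧ ∀ n < N, δ ≤ dl n := by
      clear hN hN'
      induction N with
      | zero => exact ⟨T / 2, by linarith, le_rfl, fun n hn => absurd hn (by omega)⟩
      | succ N ihN =>
        obtain ⟨δ, h1, h2, h3⟩ := ihN
        refine ⟨min δ (dl N), lt_min h1 (hdl N), (min_le_left _ _).trans h2, fun n hn => ?_⟩
        rcases Nat.lt_succ_iff_lt_or_eq.1 hn with h | h
        · exact (min_le_left _ _).trans (h3 n h)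
        · subst h; exact min_le_right _ _
    refine ⟨δ, hδ, fun s hs hsum => ?_⟩
    by_cases h : ∃ n ∈ s, n < N
    · obtain ⟨n, hn, hnN⟩ := h
      have e : x ^ n + ((s.erase n).map fun n => x ^ n).sum = (s.map fun n => x ^ n).sum :=
        List.sum_map_erase (fun n => x ^ n) hn
      have hnn : 0 ≤ ((s.erase n).map fun n => x ^ n).sum := by
        refine List.sum_nonneg ?_
        intro y hy
        obtain ⟨m, -, rfl⟩ := List.mem_map.1 hy
        positivity
      have hl : (s.erase n).length ≤ k := by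
        rw [List.length_erase_of_mem hn]; omega
      have h1 := hdl' n (by linarith) (s.erase n) hl (by linarith)
      have h2 := hδn n hnN
      linarith
    · push Not at h
      have h1 : (s.map fun n => x ^ n).sum ≤ s.length • x ^ N := by
        have : (s.map fun n => x ^ n).length = s.length := List.length_map ..
        rw [← this]
        refine List.sum_le_card_nsmul _ _ ?_
        intro y hy
        obtain ⟨m, hm, rfl⟩ := List.mem_map.1 hy
        exact pow_le_pow_of_le_one hx0.le hx1.le (h m hm)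
      have h2 : (s.length : ℝ) ≤ k + 1 := by exact_mod_cast hs
      have h3 : (s.length : ℝ) * x ^ N ≤ (k + 1) * x ^ N :=
        mul_le_mul_of_nonneg_right h2 (by positivity)
      rw [nsmul_eq_mul] at h1
      linarith

theorem hGAP : StGAP := by
  intro la k hla
  have h0 : 0 < la⁻¹ := inv_pos.2 (by linarith)
  have h1 : la⁻¹ < 1 := inv_lt_one_of_one_lt₀ hla
  exact gap_aux h0 h1 k 1 one_pos

end Pool.Agent.Helper37.KW
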