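import Pool.Agent.Helper37.KW.St

/-!
# Project KW, module GR: growth of the language and of the closed walks
-/

set_option autoImplicit false

namespace Pool.Agent.Helper37.KW

open Pool.Agent.Helper31.BD Pool.Agent.Helper84.LD

theorem hGR (h1 : StREC) (h2 : StCM) (h3 : StCL) (h4 : StRC) (h5 : StNUM) : StGR := by
  intro x hF hT hnil hpos
  obtain ⟨u, hR⟩ := h1 x hT hnil
  obtain ⟨c1, c2, _⟩ := h3 x u hR.1 hF
  obtain ⟨la, K, hla, hK, hlo, hhi, hp, hr⟩ := h5 (cnt (LX x)) (cl x u) (NN x + 1) (2 * NN x) hpos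
    (h2 (LX x) x.1 (fun w hw => LX_lt hw) hF) c1 c2 (h4 x u hR)
  exact ⟨u, la, K, hR, ⟨hla, hK, hlo, hhi⟩, hp, hr⟩

end Pool.Agent.Helper37.KW
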