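import Pool.Agent.Helper37.KW.St

/-!
# Project KW, module INE: the inequality of the certificate in real numbers
-/

set_option autoImplicit false

namespace Pool.Agent.Helper37.KW

/-- `b^n a^(M+1-n) = a^(M+1) (b/a)^n`. -/
theorem ine_term (a b M n : ℕ) (ha : (a : ℝ) ≠ 0) (hn : n ≤ M + 1) :
    ((b ^ n * a ^ (M + 1 - n) : ℕ) : ℝ) = (a : ℝ) ^ (M + 1) * ((b : ℝ) / a) ^ n := by
  push_cast
  rw [div_pow]
  have h : (a : ℝ) ^ (M + 1) = (a : ℝ) ^ (M + 1 - n) * (a : ℝ) ^ n := by
    rw [← pow_add, Nat.sub_add_cancel hn]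
  rw [h]
  field_simp

theorem ine_sum (a b M : ℕ) (ha : (a : ℝ) ≠ 0) :
    ∀ C : List (List ℕ), (∀ c ∈ C, c.length ≤ M + 1) →
      (((C.map fun c => b ^ c.length * a ^ (M + 1 - c.length)).sum : ℕ) : ℝ)
        = (a : ℝ) ^ (M + 1) * (C.map fun c => ((b : ℝ) / a) ^ c.length).sum
  | [], _ => by simp
  | c :: C, h => by
    have h1 := ine_sum a b M ha C (fun d hd => h d (List.mem_cons_of_mem _ hd))
    have h2 := ine_term a b M c.length ha (h c List.mem_cons_self)
    simp only [List.map_cons, List.sum_cons]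
    rw [Nat.cast_add, h1, h2, mul_add]

theorem hINE : StINE := by
  intro a b k M C ha hC
  have ha0 : (a : ℝ) ≠ 0 := by exact_mod_cast ha.ne'
  have hpos : (0 : ℝ) < (a : ℝ) ^ (M + 1) := by
    have : (0 : ℝ) < a := by exact_mod_cast ha
    positivity
  have hs := ine_sum a b M ha0 C hC
  have hk := ine_term a b M (M + 1) ha0 le_rfl
  rw [Nat.sub_self, pow_zero, mul_one] at hk
  unfold Ineq
  rw [← Nat.cast_lt (α := ℝ), Nat.cast_add, Nat.cast_mul, hs, hk]
  have : (a : ℝ) ^ (M + 1) * (C.map fun c => ((b : ℝ) / a) ^ c.length).sum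
      + (k : ℝ) * ((a : ℝ) ^ (M + 1) * ((b : ℝ) / a) ^ (M + 1))
      = (a : ℝ) ^ (M + 1) * ((C.map fun c => ((b : ℝ) / a) ^ c.length).sum
        + (k : ℝ) * ((b : ℝ) / a) ^ (M + 1)) := by ring
  rw [this, Nat.cast_pow]
  constructor
  · intro h
    by_contra hc
    push Not at hc
    have := mul_le_mul_of_nonneg_left hc hpos.le
    rw [mul_one] at this
    exact absurd h (not_lt.mpr this)
  · intro h
    have := mul_lt_mul_of_pos_left h hpos
    rwa [mul_one] at this

end Pool.Agent.Helper37.KW
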