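import Pool.Agent.Helper37.KW.St

/-!
# KW MODULE INF: infinite languages
-/

set_option autoImplicit false

namespace Pool.Agent.Helper37.KW

open Pool.Agent.Helper31.BD Pool.Agent.Helper84.LD

/-- INF. -/
theorem hINF : StINF := by
  intro x hF hT ht m
  obtain ⟨t, htL, htn⟩ := ht
  have ht1 : 1 ≤ t.length := List.length_pos_iff.2 htn
  have h : ∀ m : ℕ, ∃ s ∈ LX x, m ≤ s.length := by
    intro m
    induction m with
    | zero => exact ⟨t, htL, Nat.zero_le _⟩
    | succ m ih =>
      obtain ⟨s, hs, hm⟩ := ih
      obtain ⟨w, hw⟩ := hT s hs t htL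
      refine ⟨s ++ w ++ t, hw, ?_⟩
      rw [List.length_append, List.length_append]
      omega
  obtain ⟨s, hs, hm⟩ := h m
  have h1 : s.take m ∈ LX x := by
    refine fct_left hF (v := s.drop m) ?_
    rw [List.take_append_drop]
    exact hs
  have h2 := card_le_cnt (L := LX x) (N := x.1) (fun w hw => LX_lt hw) m {s.take m} (by
    intro w hw
    rw [Finset.mem_singleton] at hw
    subst hw
    refine ⟨h1, ?_⟩
    rw [List.length_take]
    omega)
  simpa using h2

end Pool.Agent.Helper37.KW
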