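import Pool.Agent.Helper37.KW.St

/-!
# Project KW, module KL: converse Kraft inequality
-/

set_option autoImplicit false

namespace Pool.Agent.Helper37.KW

open Pool.Agent.Helper31.BD Pool.Agent.Helper84.LD

/-- lists of `j` words of `C` -/
def KL_S (C : Finset (List ℕ)) : ℕ → Finset (List (List ℕ))
  | 0 => {[]}
  | j + 1 => (C ×ˢ KL_S C j).image fun p => p.1 :: p.2

theorem KL_mem (C : Finset (List ℕ)) (j : ℕ) (l : List (List ℕ)) :
    l ∈ KL_S C j ↔ l.length = j ∧ Over C l := by
  induction j generalizing l with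
  | zero =>
    rw [KL_S, Finset.mem_singleton, List.length_eq_zero_iff]
    constructor
    · rintro rfl
      exact ⟨rfl, over_nil C⟩
    · exact fun h => h.1
  | succ j ih =>
    rw [KL_S, Finset.mem_image]
    constructor
    · rintro ⟨⟨c, l'⟩, h1, rfl⟩
      rw [Finset.mem_product] at h1
      obtain ⟨h2, h3⟩ := (ih l').1 h1.2
      refine ⟨by simp [h2], ?_⟩
      intro d hd
      rcases List.mem_cons.1 hd with h | h
      · rw [h]; exact h1.1
      · exact h3 d h
    · rintro ⟨h1, h2⟩
      cases l with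
      | nil => simp at h1
      | cons c l' =>
        refine ⟨(c, l'), ?_, rfl⟩
        rw [Finset.mem_product]
        refine ⟨h2 c List.mem_cons_self, (ih l').2 ⟨by simpa using h1, ?_⟩⟩
        intro d hd
        exact h2 d (List.mem_cons_of_mem _ hd)

theorem KL_sum (C : Finset (List ℕ)) (z : ℝ) (j : ℕ) :
    ∑ l ∈ KL_S C j, z ^ l.flatten.length = (wt C z) ^ j := by
  induction j with
  | zero => simp [KL_S]
  | succ j ih =>
    rw [KL_S, Finset.sum_image, Finset.sum_product, pow_succ', ← ih]
    · unfold wt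
      rw [Finset.sum_mul_sum]
      apply Finset.sum_congr rfl
      intro c _
      apply Finset.sum_congr rfl
      intro l _
      rw [List.flatten_cons, List.length_append, pow_add]
    · rintro ⟨c, l⟩ _ ⟨c', l'⟩ _ h
      simp only [List.cons.injEq] at h
      rw [h.1, h.2]

theorem KL_take (l : List (List ℕ)) (M : ℕ) (h : ∀ c ∈ l, c.length ≤ M) (i : ℕ) :
    (l.take (i + 1)).flatten.length ≤ (l.take i).flatten.length + M := by
  induction l generalizing i with
  | nil => simp
  | cons c l ih =>
    cases i with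
    | zero =>
      have := h c List.mem_cons_self
      simpa using this
    | succ i =>
      have := ih (fun d hd => h d (List.mem_cons_of_mem _ hd)) i
      rw [List.take_succ_cons, List.take_succ_cons, List.flatten_cons, List.flatten_cons,
        List.length_append, List.length_append]
      omega

theorem KL_trim (C : Finset (List ℕ)) (M : ℕ) (hM : ∀ c ∈ C, c.length ≤ M) (t : List ℕ)
    (ht : t ∈ Fac C) (hne : t ≠ []) :
    ∃ (l : List (List ℕ)) (i : ℕ), Over C l ∧ i < M + 1 ∧ t.length ≤ l.flatten.length ∧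
      l.flatten.length ≤ t.length + 2 * M ∧ (l.flatten.drop i).take t.length = t := by
  classical
  obtain ⟨u, v, l, hl, h⟩ := ht
  rw [List.append_assoc] at h
  obtain ⟨l', u', h1, h2, h3⟩ := mi_front l u (t ++ v) h
  have hl' : Over C l' := fun c hc => hl c (h1 c hc)
  rcases h3 with rfl | ⟨c, l'', hcl, hc⟩
  · exfalso
    have h4 : u' = [] ∧ t = [] ∧ v = [] := by
      simpa [List.append_eq_nil_iff] using h2
    exact hne h4.2.1
  · have hcM : c.length ≤ M := hM c (hl' c (by rw [hcl]; exact List.mem_cons_self))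
    have htpos : 0 < t.length := List.length_pos_iff.mpr hne
    have hex : ∃ j, u'.length + t.length ≤ (l'.take j).flatten.length := by
      refine ⟨l'.length, ?_⟩
      rw [List.take_length, ← h2, List.length_append, List.length_append]
      omega
    obtain ⟨j, hj, hmin⟩ : ∃ j, u'.length + t.length ≤ (l'.take j).flatten.length ∧
        ∀ i < j, ¬ (u'.length + t.length ≤ (l'.take i).flatten.length) :=
      ⟨Nat.find hex, Nat.find_spec hex, fun i hi => Nat.find_min hex hi⟩
    have hj0 : j ≠ 0 := by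
      intro h0
      rw [h0, List.take_zero, List.flatten_nil, List.length_nil] at hj
      omega
    obtain ⟨j', hj'⟩ : ∃ j', j = j' + 1 := ⟨j - 1, by omega⟩
    have hlt := hmin j' (by omega)
    push Not at hlt
    have hstep := KL_take l' M (fun d hd => hM d (hl' d hd)) j'
    rw [← hj'] at hstep
    set m := l'.take j with hm
    have hpre : (u' ++ t) <+: l'.flatten := ⟨v, by rw [List.append_assoc, h2]⟩
    have htk : m.flatten.take (u' ++ t).length = u' ++ t :=
      mi_take_eq _ _ _ (mi_flatten_take l' j) hpre (by rw [List.length_append]; exact hj)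
    refine ⟨m, u'.length, fun d hd => hl' d (List.mem_of_mem_take hd), by omega, by omega,
      by omega, ?_⟩
    have : (m.flatten.drop u'.length).take t.length
        = (m.flatten.take (u'.length + t.length)).drop u'.length := by
      rw [List.drop_take]
      congr 1
      omega
    rw [this]
    rw [List.length_append] at htk
    rw [htk]
    simp

theorem KL_len (l : List (List ℕ)) (h : ∀ c ∈ l, c ≠ []) : l.length ≤ l.flatten.length := by
  induction l with
  | nil => simp
  | cons c l ih =>
    have h1 := ih (fun d hd => h d (List.mem_cons_of_mem _ hd))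
    have h2 : 0 < c.length := List.length_pos_iff.mpr (h c List.mem_cons_self)
    rw [List.flatten_cons, List.length_append, List.length_cons]
    omega

theorem KL_cnt (C : Finset (List ℕ)) (h0 : [] ∉ C) (M : ℕ) (hM : ∀ c ∈ C, c.length ≤ M) (z : ℝ)
    (hz : 0 < z) (hz1 : z ≤ 1) (hw : wt C z < 1) (m : ℕ) (hm : 0 < m) :
    (cnt (Fac C) m : ℝ) * z ^ (m + 2 * M) ≤ (M + 1) * (1 - wt C z)⁻¹ := by
  classical
  set J := m + 2 * M + 1 with hJ
  set Lm := ((Finset.range J).biUnion (KL_S C)).filter
    (fun l => l.flatten.length ≤ m + 2 * M) with hLm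
  set T := (Lm ×ˢ Finset.range (M + 1)).image (fun p => (p.1.flatten.drop p.2).take m) with hT
  have hs0 : 0 ≤ wt C z := Finset.sum_nonneg fun c _ => pow_nonneg hz.le _
  have h1 : cnt (Fac C) m ≤ T.card := by
    unfold cnt
    rw [← Set.ncard_coe_finset]
    apply Set.ncard_le_ncard _ (Finset.finite_toSet T)
    rintro t ⟨ht, hlen⟩
    have hne : t ≠ [] := by
      rintro rfl
      simp at hlen
      omega
    obtain ⟨l, i, e1, e2, e3, e4, e5⟩ := KL_trim C M hM t ht hne
    rw [Finset.mem_coe, hT, Finset.mem_image]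
    refine ⟨(l, i), ?_, ?_⟩
    · rw [Finset.mem_product, hLm, Finset.mem_filter, Finset.mem_biUnion]
      refine ⟨⟨⟨l.length, ?_, (KL_mem C _ l).2 ⟨rfl, e1⟩⟩, by rw [← hlen]; exact e4⟩,
        Finset.mem_range.2 e2⟩
      rw [Finset.mem_range]
      have := KL_len l (fun c hc h => h0 (h ▸ e1 c hc))
      omega
    · rw [← hlen]
      exact e5
  have h2 : T.card ≤ Lm.card * (M + 1) := by
    refine Finset.card_image_le.trans ?_
    rw [Finset.card_product, Finset.card_range]
  have h3 : (Lm.card : ℝ) * z ^ (m + 2 * M) ≤ (1 - wt C z)⁻¹ := by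
    have e1 : (Lm.card : ℝ) * z ^ (m + 2 * M) ≤ ∑ l ∈ Lm, z ^ l.flatten.length := by
      rw [← nsmul_eq_mul]
      apply Finset.card_nsmul_le_sum
      intro l hl
      rw [hLm, Finset.mem_filter] at hl
      exact pow_le_pow_of_le_one hz.le hz1 hl.2
    have e2 : ∑ l ∈ Lm, z ^ l.flatten.length ≤
        ∑ l ∈ (Finset.range J).biUnion (KL_S C), z ^ l.flatten.length :=
      Finset.sum_le_sum_of_subset_of_nonneg (Finset.filter_subset _ _)
        (fun _ _ _ => pow_nonneg hz.le _)
    have e3 : ∑ l ∈ (Finset.range J).biUnion (KL_S C), z ^ l.flatten.length =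
        ∑ j ∈ Finset.range J, (wt C z) ^ j := by
      rw [Finset.sum_biUnion]
      · apply Finset.sum_congr rfl
        intro j _
        exact KL_sum C z j
      · intro a _ b _ hab
        rw [Function.onFun, Finset.disjoint_left]
        intro l ha hb
        exact hab (((KL_mem C a l).1 ha).1.symm.trans ((KL_mem C b l).1 hb).1)
    have e4 : ∑ j ∈ Finset.range J, (wt C z) ^ j ≤ (1 - wt C z)⁻¹ := by
      have hpos : 0 < 1 - wt C z := by linarith
      rw [← one_div, le_div_iff₀ hpos, mul_comm, mul_neg_geom_sum]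
      have := pow_nonneg hs0 J
      linarith
    rw [e3] at e2
    exact e1.trans (e2.trans e4)
  have h4 : (cnt (Fac C) m : ℝ) ≤ (Lm.card : ℝ) * (M + 1) := by
    have := h1.trans h2
    exact_mod_cast this
  calc (cnt (Fac C) m : ℝ) * z ^ (m + 2 * M) ≤ ((Lm.card : ℝ) * (M + 1)) * z ^ (m + 2 * M) :=
        mul_le_mul_of_nonneg_right h4 (pow_nonneg hz.le _)
    _ = (M + 1) * ((Lm.card : ℝ) * z ^ (m + 2 * M)) := by ring
    _ ≤ (M + 1) * (1 - wt C z)⁻¹ := mul_le_mul_of_nonneg_left h3 (by positivity)

/-- **KL** -/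
theorem hKL : StKL := by
  classical
  intro C r n h0 hr hn hlo
  by_contra hlt
  push Not at hlt
  set M := C.sup List.length with hMdef
  have hM : ∀ c ∈ C, c.length ≤ M := fun c hc => Finset.le_sup (f := List.length) hc
  -- C is nonempty
  obtain ⟨c0, hc0⟩ : ∃ c, c ∈ C := by
    have h1 := hlo 1
    have h2 : (0 : ℝ) < r ^ (n * 1) := pow_pos hr _
    have h3 : 0 < cnt (Fac C) (n * 1) := by
      have := h2.trans_le h1
      exact_mod_cast this
    unfold cnt at h3
    have h4 := Set.nonempty_of_ncard_ne_zero h3.ne'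
    obtain ⟨t, ht, hlen⟩ := h4
    have hne : t ≠ [] := by
      rintro rfl
      simp at hlen
      omega
    obtain ⟨l, i, e1, _, e3, _, _⟩ := KL_trim C M hM t ht hne
    cases l with
    | nil =>
      exfalso
      have := List.length_pos_iff.mpr hne
      simp at e3
      exact hne e3
    | cons c l => exact ⟨c, e1 c List.mem_cons_self⟩
  -- a larger point
  obtain ⟨z, hz1, hz2⟩ : ∃ z : ℝ, wt C z < 1 ∧ r⁻¹ < z := by
    have hcont : Continuous (fun z : ℝ => wt C z) := by
      unfold wt
      fun_prop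
    have h1 : ∀ᶠ z in nhds (r⁻¹), wt C z < 1 :=
      hcont.continuousAt.eventually (Iio_mem_nhds hlt)
    have h2 : ∀ᶠ z in nhdsWithin (r⁻¹) (Set.Ioi r⁻¹), wt C z < 1 :=
      h1.filter_mono nhdsWithin_le_nhds
    have h3 : ∀ᶠ z in nhdsWithin (r⁻¹) (Set.Ioi r⁻¹), r⁻¹ < z := self_mem_nhdsWithin
    exact (h2.and h3).exists
  have hz : 0 < z := (inv_pos.mpr hr).trans hz2
  have hzle : z ≤ 1 := by
    by_contra h
    push Not at h
    have h1 : z ^ c0.length ≤ wt C z := by
      unfold wt
      exact Finset.single_le_sum (f := fun c : List ℕ => z ^ c.length)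
        (fun c _ => pow_nonneg hz.le _) hc0
    have h2 : 1 ≤ z ^ c0.length := one_le_pow₀ h.le
    linarith
  have hrz : 1 < r * z := by
    have := mul_lt_mul_of_pos_left hz2 hr
    rwa [mul_inv_cancel₀ hr.ne'] at this
  set G : ℝ := (M + 1) * (1 - wt C z)⁻¹ * (z ^ (2 * M))⁻¹ with hG
  have hbound : ∀ j : ℕ, ((r * z) ^ n) ^ (j + 1) ≤ G := by
    intro j
    have h1 := KL_cnt C h0 M hM z hz hzle hz1 (n * (j + 1)) (Nat.mul_pos hn (Nat.succ_pos j))
    have h2 := hlo (j + 1)
    have h3 : (0 : ℝ) < z ^ (2 * M) := pow_pos hz _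
    have h4 : r ^ (n * (j + 1)) * z ^ (n * (j + 1) + 2 * M) ≤ (M + 1) * (1 - wt C z)⁻¹ :=
      (mul_le_mul_of_nonneg_right h2 (pow_nonneg hz.le _)).trans h1
    rw [hG, ← div_eq_mul_inv, le_div_iff₀ h3, ← pow_mul, mul_pow]
    rw [pow_add] at h4
    linarith
  have hone : 1 < (r * z) ^ n := one_lt_pow₀ hrz hn.ne'
  obtain ⟨N, hN⟩ := pow_unbounded_of_one_lt G hone
  have h5 : ((r * z) ^ n) ^ N ≤ ((r * z) ^ n) ^ (N + 1) :=
    pow_le_pow_right₀ hone.le (Nat.le_succ N)
  have := hbound N
  linarith

end Pool.Agent.Helper37.KW
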