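import Pool.Agent.Helper37.KW.St

/-!
# Project KW: module NUM (growth rates)
-/

set_option autoImplicit false

namespace Pool.Agent.Helper37.KW

open Filter Topology

theorem num_pow_le (p : ℕ → ℕ) (hp : ∀ m n, p m * p n ≤ p (m + n)) (n : ℕ) :
    ∀ j : ℕ, (p n) ^ (j + 1) ≤ p (n * (j + 1)) := by
  intro j
  induction j with
  | zero => simp
  | succ j ih =>
    calc (p n) ^ (j + 1 + 1) = (p n) ^ (j + 1) * p n := pow_succ _ _
      _ ≤ p (n * (j + 1)) * p n := Nat.mul_le_mul_right _ ih
      _ ≤ p (n * (j + 1) + n) := hp _ _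
      _ = p (n * (j + 1 + 1)) := by congr 1

theorem hNUM : StNUM := by
  intro c p A B hc1 hcs hps hpc hcp
  have hcpos : ∀ m, (0 : ℝ) < (c m : ℝ) := fun m => by
    have := hc1 m
    exact_mod_cast (by omega : 0 < c m)
  have hc1' : ∀ m, (1 : ℝ) ≤ (c m : ℝ) := fun m => by exact_mod_cast hc1 m
  set u : ℕ → ℝ := fun m => Real.log (c m) with hu
  have hun : ∀ m, 0 ≤ u m := fun m => Real.log_nonneg (hc1' m)
  have hsub : Subadditive u := by
    intro m n
    show Real.log (c (m + n)) ≤ Real.log (c m) + Real.log (c n)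
    rw [← Real.log_mul (hcpos m).ne' (hcpos n).ne']
    exact Real.log_le_log (hcpos _) (by exact_mod_cast hcs m n)
  have hbdd : BddBelow (Set.range fun n : ℕ => u n / n) := by
    refine ⟨0, ?_⟩
    rintro _ ⟨n, rfl⟩
    exact div_nonneg (hun n) (Nat.cast_nonneg n)
  have htl : Tendsto (fun n : ℕ => u n / n) atTop (𝓝 hsub.lim) := hsub.tendsto_lim hbdd
  have hlim0 : 0 ≤ hsub.lim :=
    ge_of_tendsto' htl (fun n => div_nonneg (hun n) (Nat.cast_nonneg n))
  set la : ℝ := Real.exp hsub.lim with hla
  have hla0 : 0 < la := Real.exp_pos _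
  have hla1 : 1 ≤ la := Real.one_le_exp hlim0
  have hpow : ∀ m : ℕ, la ^ m = Real.exp (m * hsub.lim) := fun m => by
    rw [hla, ← Real.exp_nat_mul]
  -- lower bound for c
  have hlo : ∀ m : ℕ, la ^ m ≤ (c m : ℝ) := by
    intro m
    rcases Nat.eq_zero_or_pos m with h0 | h0
    · subst h0; simpa using hc1' 0
    · have h1 := hsub.lim_le_div hbdd (n := m) (by omega)
      have hm : (0 : ℝ) < m := by exact_mod_cast h0
      rw [le_div_iff₀ hm] at h1
      rw [hpow, ← Real.exp_log (hcpos m)]
      apply Real.exp_le_exp.2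
      rw [mul_comm]
      exact h1
  -- upper bound for p
  have hpu : ∀ n : ℕ, (p n : ℝ) ≤ la ^ n := by
    intro n
    rcases Nat.eq_zero_or_pos n with h0 | h0
    · subst h0
      have h1 := hps 0 0
      simp only [add_zero] at h1
      have h2 : p 0 ≤ 1 := by
        by_contra hcon
        push Not at hcon
        nlinarith
      simpa using (by exact_mod_cast h2 : (p 0 : ℝ) ≤ 1)
    · rcases Nat.eq_zero_or_pos (p n) with hp0 | hp0
      · rw [hp0]
        simpa using (pow_pos hla0 n).le
      · have hn : (0 : ℝ) < n := by exact_mod_cast h0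
        have hpn : (0 : ℝ) < (p n : ℝ) := by exact_mod_cast hp0
        have hseq : Tendsto (fun j : ℕ => n * (j + 1)) atTop atTop := by
          refine tendsto_atTop_mono (fun j => ?_) (tendsto_id (α := ℕ))
          show j ≤ n * (j + 1)
          nlinarith
        have htl2 := htl.comp hseq
        have hkey : Real.log (p n) / n ≤ hsub.lim := by
          refine ge_of_tendsto' htl2 (fun j => ?_)
          show Real.log (p n) / n ≤ u (n * (j + 1)) / ((n * (j + 1) : ℕ) : ℝ)
          have h1 : (p n) ^ (j + 1) ≤ c (n * (j + 1)) :=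
            (num_pow_le p hps n j).trans (hpc _)
          have h2 : ((p n : ℝ)) ^ (j + 1) ≤ (c (n * (j + 1)) : ℝ) := by exact_mod_cast h1
          have h3 : ((j + 1 : ℕ) : ℝ) * Real.log (p n) ≤ u (n * (j + 1)) := by
            have := Real.log_le_log (pow_pos hpn (j + 1)) h2
            rw [Real.log_pow] at this
            exact this
          have hj : (0 : ℝ) < ((j + 1 : ℕ) : ℝ) := by positivity
          rw [div_le_div_iff₀ hn (by push_cast; positivity)]
          have : Real.log (p n) * ((n * (j + 1) : ℕ) : ℝ) =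
              (((j + 1 : ℕ) : ℝ) * Real.log (p n)) * n := by
            push_cast; ring
          rw [this]
          exact mul_le_mul_of_nonneg_right h3 hn.le
        rw [div_le_iff₀ hn] at hkey
        rw [hpow, ← Real.exp_log hpn]
        apply Real.exp_le_exp.2
        rw [mul_comm]
        exact hkey
  refine ⟨la, max 1 ((A : ℝ) * (B + 1) * la ^ B), hla1, le_max_left _ _, hlo, ?_, hpu, ?_⟩
  · intro m
    have h1 : (c m : ℝ) ≤ (A : ℝ) * ∑ i ∈ Finset.range (B + 1), (p (m + i) : ℝ) := by
      exact_mod_cast hcp m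
    have h2 : ∑ i ∈ Finset.range (B + 1), (p (m + i) : ℝ) ≤ (B + 1 : ℝ) * (la ^ B * la ^ m) := by
      calc ∑ i ∈ Finset.range (B + 1), (p (m + i) : ℝ)
          ≤ ∑ i ∈ Finset.range (B + 1), la ^ B * la ^ m := by
            apply Finset.sum_le_sum
            intro i hi
            have hi' : i ≤ B := by
              have := Finset.mem_range.1 hi
              omega
            calc (p (m + i) : ℝ) ≤ la ^ (m + i) := hpu _
              _ = la ^ i * la ^ m := by rw [pow_add, mul_comm]
              _ ≤ la ^ B * la ^ m :=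
                mul_le_mul_of_nonneg_right (pow_le_pow_right₀ hla1 hi') (pow_pos hla0 m).le
        _ = (B + 1 : ℝ) * (la ^ B * la ^ m) := by
            rw [Finset.sum_const, Finset.card_range, nsmul_eq_mul]
            push_cast
            ring
    calc (c m : ℝ) ≤ (A : ℝ) * ∑ i ∈ Finset.range (B + 1), (p (m + i) : ℝ) := h1
      _ ≤ (A : ℝ) * ((B + 1 : ℝ) * (la ^ B * la ^ m)) :=
          mul_le_mul_of_nonneg_left h2 (Nat.cast_nonneg A)
      _ = ((A : ℝ) * (B + 1) * la ^ B) * la ^ m := by ring
      _ ≤ max 1 ((A : ℝ) * (B + 1) * la ^ B) * la ^ m :=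
          mul_le_mul_of_nonneg_right (le_max_right _ _) (pow_pos hla0 m).le
  · intro r hr0 hr1
    by_contra hcon
    push Not at hcon
    set R : ℝ := max 1 r with hR
    have hR1 : 1 ≤ R := le_max_left _ _
    have hrR : r ≤ R := le_max_right _ _
    have hbound : ∀ m : ℕ, 1 ≤ m → (la / r) ^ m ≤ (A : ℝ) * (B + 1) * R ^ B := by
      intro m hm
      have h1 : (c m : ℝ) ≤ (A : ℝ) * ∑ i ∈ Finset.range (B + 1), (p (m + i) : ℝ) := by
        exact_mod_cast hcp m
      have h2 : ∑ i ∈ Finset.range (B + 1), (p (m + i) : ℝ) ≤ (B + 1 : ℝ) * (R ^ B * r ^ m) := by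
        calc ∑ i ∈ Finset.range (B + 1), (p (m + i) : ℝ)
            ≤ ∑ i ∈ Finset.range (B + 1), R ^ B * r ^ m := by
              apply Finset.sum_le_sum
              intro i hi
              have hi' : i ≤ B := by
                have := Finset.mem_range.1 hi
                omega
              calc (p (m + i) : ℝ) ≤ r ^ (m + i) := (hcon (m + i) (by omega)).le
                _ = r ^ i * r ^ m := by rw [pow_add, mul_comm]
                _ ≤ R ^ i * r ^ m :=
                  mul_le_mul_of_nonneg_right (pow_le_pow_left₀ hr0.le hrR i) (pow_pos hr0 m).le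
                _ ≤ R ^ B * r ^ m :=
                  mul_le_mul_of_nonneg_right (pow_le_pow_right₀ hR1 hi') (pow_pos hr0 m).le
          _ = (B + 1 : ℝ) * (R ^ B * r ^ m) := by
              rw [Finset.sum_const, Finset.card_range, nsmul_eq_mul]
              push_cast
              ring
      have h3 : la ^ m ≤ ((A : ℝ) * (B + 1) * R ^ B) * r ^ m := by
        calc la ^ m ≤ (c m : ℝ) := hlo m
          _ ≤ (A : ℝ) * ∑ i ∈ Finset.range (B + 1), (p (m + i) : ℝ) := h1
          _ ≤ (A : ℝ) * ((B + 1 : ℝ) * (R ^ B * r ^ m)) :=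
              mul_le_mul_of_nonneg_left h2 (Nat.cast_nonneg A)
          _ = ((A : ℝ) * (B + 1) * R ^ B) * r ^ m := by ring
      rw [div_pow, div_le_iff₀ (pow_pos hr0 m)]
      exact h3
    have hgt : 1 < la / r := by rw [lt_div_iff₀ hr0]; linarith
    have ht := tendsto_pow_atTop_atTop_of_one_lt hgt
    obtain ⟨N, hN⟩ := (ht.eventually (eventually_gt_atTop ((A : ℝ) * (B + 1) * R ^ B))).exists_forall_of_atTop
    have h1 := hN (N + 1) (by omega)
    have h2 := hbound (N + 1) (by omega)
    linarith

end Pool.Agent.Helper37.KW
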