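import Pool.Agent.Helper37.KW.St

/-! # Project KW, module POS -/

set_option autoImplicit false

namespace Pool.Agent.Helper37.KW

open Pool.Agent.Helper31.BD Pool.Agent.Helper84.LD

theorem hPOS (h1 : StUD) : StPOS := by
  intro x k
  constructor
  · rintro ⟨B, C, hC, hk, h0, hud, hw⟩
    obtain ⟨hnd, hmem⟩ := subs_nodup _ (wdLe_nodup _ _) C hC
    have h0' : [] ∉ C.toFinset := by simpa using h0
    have hn : ∀ c ∈ C.toFinset, ∀ a ∈ c, a < x.1 := by
      intro c hc
      exact ((mem_wdLe _ _ _).1 (hmem c (by simpa using hc))).2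
    have hL : LX x = Fac C.toFinset := by
      have h1 := short_diff x C.toFinset h0' (by
        intro w hwn hwl
        rw [hw w ((mem_wdLe _ _ _).2 ⟨by rw [KK, D0_eq C hnd]; exact hwl, hwn⟩), facX_iff C h0])
      ext w
      constructor
      · intro hwL
        exact (h1 w hwL.1).1 hwL
      · intro hwF
        exact (h1 w (fac_letters hn hwF)).2 hwF
    refine ⟨C.toFinset, (h1 C).1 hud, ?_, hL⟩
    rw [List.toFinset_card_of_nodup hnd]
    omega
  · rintro ⟨C, hud, hk, hL⟩
    have h0 := ud_nil hud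
    have hn : ∀ c ∈ C, ∀ a ∈ c, a < x.1 := by
      intro c hc
      have h1 : c ∈ LX x := by rw [hL]; exact mem_fac_self hc
      exact h1.1
    obtain ⟨C', hC', hnd, rfl⟩ := mem_subs _ (wdLe_nodup x.1 (C.sup List.length)) C
      (fun c hc => (mem_wdLe _ _ _).2 ⟨Finset.le_sup (f := List.length) hc, hn c hc⟩)
    have h0' : [] ∉ C' := by simpa using h0
    rw [List.toFinset_card_of_nodup hnd] at hk
    refine ⟨_, C', hC', by omega, h0', (h1 C').2 hud, ?_⟩
    intro w _
    rw [facX_iff C' h0', hL]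

end Pool.Agent.Helper37.KW
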