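import Pool.Agent.Helper37.KW.St

/-!
# Project KW, module PRD
-/

set_option autoImplicit false

namespace Pool.Agent.Helper37.KW

open Pool.Agent.Helper31.BD Pool.Agent.Helper84.LD

theorem PRD_aux (x : Inp) (C : List (List ℕ)) (h : PrdOK x C) :
    ∀ (n : ℕ) (l : List (List ℕ)), l.length = n → (∀ c ∈ l, c ∈ C) → l.flatten ∈ LX x := by
  intro n
  induction n using Nat.strong_induction_on with
  | _ n ih =>
    intro l hn hl
    by_cases hN : n < NN x + 1
    · exact h n hN l ((mem_pw C n l).2 ⟨hn, hl⟩)
    · push Not at hN
      have hpig : ∃ i ∈ Finset.range (NN x + 1), ∃ j ∈ Finset.range (NN x + 1), i ≠ j ∧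
          mk_cls x (l.take i).flatten = mk_cls x (l.take j).flatten := by
        apply Finset.exists_ne_map_eq_of_card_lt_of_maps_to (t := Finset.range (NN x))
        · rw [Finset.card_range, Finset.card_range]
          omega
        · intro i _
          have := mk_cls_lt x (l.take i).flatten
          simpa using this
      obtain ⟨i, hi, j, hj, hij, heq⟩ := hpig
      rw [Finset.mem_range] at hi hj
      wlog hlt : i < j generalizing i j
      · exact this j hj i hi (Ne.symm hij) heq.symm (by omega)
      have hst : ∀ v, ((l.take i).flatten ++ v ∈ LX x ↔ (l.take j).flatten ++ v ∈ LX x) := by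
        intro v
        rw [mk_app, mk_app]
        have h0 := heq
        unfold mk_cls at h0
        have l1 := mk_num_lt x (l.take i).flatten
        have l2 := mk_num_lt x (l.take j).flatten
        split_ifs at h0 with h1 h2 h3
        · rw [mk_num_inj x _ _ h0]
          exact ⟨fun h => ⟨h2, h.2⟩, fun h => ⟨h1, h.2⟩⟩
        · omega
        · omega
        · exact ⟨fun h => absurd h.1 h1, fun h => absurd h.1 h3⟩
      have hlen : (l.take i ++ l.drop j).length < n := by
        rw [List.length_append, List.length_take, List.length_drop]
        omega
      have hshort := ih _ hlen (l.take i ++ l.drop j) rfl (by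
        intro c hc
        rcases List.mem_append.1 hc with h1 | h1
        · exact hl c (List.mem_of_mem_take h1)
        · exact hl c (List.mem_of_mem_drop h1))
      rw [List.flatten_append] at hshort
      have hfin := (hst _).1 hshort
      rw [← List.flatten_append, List.take_append_drop] at hfin
      exact hfin

theorem hPRD : StPRD := by
  intro x C
  constructor
  · intro h l hl
    exact PRD_aux x C h l.length l rfl hl
  · intro h j _ l hl
    exact h l ((mem_pw C j l).1 hl).2

end Pool.Agent.Helper37.KW
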