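import Pool.Agent.Helper37.KW.St

/-!
# Project KW: module RC (every word occurs in a closed walk word)
-/

set_option autoImplicit false

namespace Pool.Agent.Helper37.KW

open Pool.Agent.Helper31.BD Pool.Agent.Helper84.LD

theorem hRC : StRC := by
  classical
  intro x u hrec m
  obtain ⟨_, h⟩ := hrec
  choose! f g hfg using h
  have hfin := fin_wds (L := LX x) (N := x.1) (fun w hw => LX_lt hw) m
  unfold cnt
  rw [Set.ncard_eq_toFinset_card _ hfin]
  set cs : ℕ → Finset (List ℕ) := fun n =>
    ((FL x.1 n).toFinset.filter fun d => mk_st x (u ++ d) = mk_st x u) with hcs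
  set T : Finset (ℕ × (Σ _ : ℕ, List ℕ)) :=
    (Finset.range (NN x + 1)) ×ˢ ((Finset.range (2 * NN x + 1)).sigma fun i => cs (m + i)) with hT
  have hcardT : T.card = (NN x + 1) * ∑ i ∈ Finset.range (2 * NN x + 1), cl x u (m + i) := by
    rw [hT, Finset.card_product, Finset.card_range, Finset.card_sigma]
    congr 1
    refine Finset.sum_congr rfl fun i _ => ?_
    rw [hcs, cl_eq]
  rw [← hcardT]
  refine Finset.card_le_card_of_injOn
    (fun t => ((f t).length, (⟨(f t).length + (g t).length, f t ++ t ++ g t⟩ : Σ _ : ℕ, List ℕ)))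
    ?_ ?_
  · intro t ht
    have ht' : t ∈ LX x ∧ t.length = m := by simpa using ht
    obtain ⟨htL, htm⟩ := ht'
    obtain ⟨h1, h2, h3, h4, h5, h6⟩ := hfg t htL
    show _ ∈ T
    rw [hT, Finset.mem_product]
    refine ⟨?_, ?_⟩
    · show (f t).length ∈ Finset.range (NN x + 1)
      rw [Finset.mem_range]; omega
    · show (⟨(f t).length + (g t).length, f t ++ t ++ g t⟩ : Σ _ : ℕ, List ℕ) ∈ _
      rw [Finset.mem_sigma]
      refine ⟨?_, ?_⟩
      · show (f t).length + (g t).length ∈ Finset.range (2 * NN x + 1)
        rw [Finset.mem_range]; omega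
      · show f t ++ t ++ g t ∈ cs (m + ((f t).length + (g t).length))
        rw [hcs, mem_cl]
        refine ⟨?_, ?_, ?_⟩
        · simp only [List.length_append, htm]; omega
        · exact lt_app (lt_app h3 (LX_lt htL)) h4
        · have : u ++ (f t ++ t ++ g t) = u ++ f t ++ t ++ g t := by
            simp only [List.append_assoc]
          rw [this]
          exact h6
  · intro t ht t' ht' heq
    have ht1 : t ∈ LX x ∧ t.length = m := by simpa using ht
    have ht2 : t' ∈ LX x ∧ t'.length = m := by simpa using ht'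
    simp only [Prod.mk.injEq, Sigma.mk.injEq, heq_eq_eq] at heq
    obtain ⟨e1, _, e3⟩ := heq
    have e4 : f t ++ (t ++ g t) = f t' ++ (t' ++ g t') := by
      simpa only [List.append_assoc] using e3
    have e5 := (List.append_inj e4 e1).2
    exact (List.append_inj e5 (by rw [ht1.2, ht2.2])).1

end Pool.Agent.Helper37.KW
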