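import Pool.Agent.Helper37.KW.St

/-!
# Project KW, module REC: recurrent states exist
-/

set_option autoImplicit false

namespace Pool.Agent.Helper37.KW

open Pool.Agent.Helper31.BD Pool.Agent.Helper84.LD

/-- numbers of the states reachable from `u` inside the language -/
def rcR (x : Inp) (u : List ℕ) : Set ℕ :=
  {m | ∃ v : List ℕ, u ++ v ∈ LX x ∧ mk_num x (mk_st x (u ++ v)) = m}

theorem rcR_fin (x : Inp) (u : List ℕ) : (rcR x u).Finite := by
  refine Set.Finite.subset (Set.finite_Iio (x.2.1.length + 2)) ?_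
  rintro m ⟨v, _, rfl⟩
  exact mk_num_lt x (u ++ v)

theorem rcR_sub (x : Inp) (u v : List ℕ) : rcR x (u ++ v) ⊆ rcR x u := by
  rintro m ⟨v', h, rfl⟩
  exact ⟨v ++ v', by rwa [← List.append_assoc], by rw [← List.append_assoc]⟩

theorem hREC (h1 : StSHO) (h2 : StTS) : StREC := by
  classical
  intro x hT h0
  have hex : ∃ m : ℕ, ∃ u ∈ LX x, (rcR x u).ncard = m := ⟨_, [], h0, rfl⟩
  obtain ⟨u, hu, hm⟩ := Nat.find_spec hex
  have hmin : ∀ u' ∈ LX x, (rcR x u).ncard ≤ (rcR x u').ncard := by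
    intro u' hu'
    rw [hm]
    exact Nat.find_min' hex ⟨u', hu', rfl⟩
  refine ⟨u, hu, ?_⟩
  intro t ht
  obtain ⟨w, hw, hwl, hwt⟩ := h2 x u t (hT u hu t ht)
  have hsub : rcR x (u ++ w ++ t) ⊆ rcR x u := by
    have := rcR_sub x u (w ++ t)
    rwa [← List.append_assoc] at this
  have heq : rcR x (u ++ w ++ t) = rcR x u :=
    Set.eq_of_subset_of_ncard_le hsub (hmin _ hwt) (rcR_fin x u)
  have hmem : mk_num x (mk_st x u) ∈ rcR x (u ++ w ++ t) := by
    rw [heq]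
    exact ⟨[], by simpa using hu, by simp⟩
  obtain ⟨v, hv, hvn⟩ := hmem
  have hst : mk_st x (u ++ w ++ t ++ v) = mk_st x u := mk_num_inj x _ _ hvn
  have hvlt : ∀ a ∈ v, a < x.1 := fun a ha =>
    LX_lt hv a (List.mem_append.2 (Or.inr ha))
  obtain ⟨w', hw', hwl', hst'⟩ := h1 x (u ++ w ++ t) v hvlt
  exact ⟨w, w', hwl, hwl', hw, hw', hwt, hst'.trans hst⟩

end Pool.Agent.Helper37.KW
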