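import Pool.Agent.Helper37.KW.St

set_option autoImplicit false

namespace Pool.Agent.Helper37.KW

open Pool.Agent.Helper31.BD Pool.Agent.Helper84.LD

theorem hSM (h1 : StCL) (h2 : StKL) (h3 : StFT) (h4 : StUD) (h5 : StPRD) (h6 : StINE) : StSM := by
  classical
  intro x k M a b n u hN hG
  obtain ⟨hba, hn, hu, hcl, hall⟩ := hN
  obtain ⟨C, hUD, hk, hL⟩ := hG
  have ha : 0 < a := by omega
  have hFct : Fct (LX x) := by rw [hL]; exact (h3 C).1
  have hb : 0 < b := by
    rcases Nat.eq_zero_or_pos b with h | h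
    · subst h
      rw [zero_pow hn.ne', mul_zero] at hcl
      have : 0 < a ^ n := pow_pos ha n
      omega
    · exact h
  have ha' : (0 : ℝ) < a := by exact_mod_cast ha
  have hb' : (0 : ℝ) < b := by exact_mod_cast hb
  have hnil := ud_nil hUD
  obtain ⟨-, -, hcl3⟩ := h1 x u hu hFct
  have hr : 0 < (a : ℝ) / b := by positivity
  have hwt : 1 ≤ wt C ((a : ℝ) / b)⁻¹ := by
    refine h2 C _ n hnil hr hn ?_
    intro j
    rw [← hL]
    have e1 : ((a : ℝ) / b) ^ n ≤ (cl x u n : ℝ) := by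
      rw [div_pow, div_le_iff₀ (by positivity)]
      exact_mod_cast hcl
    calc ((a : ℝ) / b) ^ (n * j) = (((a : ℝ) / b) ^ n) ^ j := pow_mul _ _ _
      _ ≤ (cl x u n : ℝ) ^ j := pow_le_pow_left₀ (by positivity) e1 j
      _ ≤ _ := by exact_mod_cast hcl3 n j
  rw [inv_div] at hwt
  have hlet : ∀ c ∈ C, ∀ i ∈ c, i < x.1 := by
    intro c hc
    have h : c ∈ LX x := by rw [hL]; exact mem_fac_self hc
    exact LX_lt h
  set C1 : Finset (List ℕ) := C.filter (fun c => c.length ≤ M) with hC1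
  obtain ⟨C', hC', hnd, hto⟩ := mem_subs (wdLe x.1 M) (wdLe_nodup _ _) C1 (by
    intro c hc
    rw [hC1, Finset.mem_filter] at hc
    exact (mem_wdLe _ _ _).2 ⟨hc.2, hlet c hc.1⟩)
  have hsub : C1 ⊆ C := Finset.filter_subset _ _
  have hUD' : UDX C' := (h4 C').2 (by
    rw [hto]
    intro l1 l2 hl1 hl2
    exact hUD l1 l2 (fun c hc => hsub (hl1 c hc)) (fun c hc => hsub (hl2 c hc)))
  have hP : PrdOK x C' := (h5 x C').2 (by
    intro l hl
    rw [hL]
    exact flatten_mem_Fac (fun c hc => hsub (by rw [← hto]; exact List.mem_toFinset.2 (hl c hc))))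
  have hlen : C'.length < k + 1 := by
    rw [← List.toFinset_card_of_nodup hnd, hto]
    exact Nat.lt_succ_of_le ((Finset.card_le_card hsub).trans hk)
  have hI := hall C' hC' hlen hUD' hP
  have hCl : ∀ c ∈ C', c.length ≤ M + 1 := by
    intro c hc
    have : c ∈ C1 := by rw [← hto]; exact List.mem_toFinset.2 hc
    rw [hC1, Finset.mem_filter] at this
    omega
  rw [h6 a b k M C' ha hCl] at hI
  have hz0 : 0 < (b : ℝ) / a := by positivity
  have hz1 : (b : ℝ) / a ≤ 1 := by
    rw [div_le_one ha']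
    exact_mod_cast hba.le
  have e1 : (C'.map fun c => ((b : ℝ) / a) ^ c.length).sum =
      ∑ c ∈ C1, ((b : ℝ) / a) ^ c.length := by
    rw [← hto, List.sum_toFinset _ hnd]
  have e2 : wt C ((b : ℝ) / a) = ∑ c ∈ C1, ((b : ℝ) / a) ^ c.length +
      ∑ c ∈ C.filter (fun c => ¬ c.length ≤ M), ((b : ℝ) / a) ^ c.length := by
    unfold wt
    rw [hC1]
    exact (Finset.sum_filter_add_sum_filter_not C _ _).symm
  have e3 : ∑ c ∈ C.filter (fun c => ¬ c.length ≤ M), ((b : ℝ) / a) ^ c.length ≤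
      k * ((b : ℝ) / a) ^ (M + 1) := by
    calc ∑ c ∈ C.filter (fun c => ¬ c.length ≤ M), ((b : ℝ) / a) ^ c.length
        ≤ ∑ c ∈ C.filter (fun c => ¬ c.length ≤ M), ((b : ℝ) / a) ^ (M + 1) := by
          refine Finset.sum_le_sum fun c hc => ?_
          have := (Finset.mem_filter.1 hc).2
          exact pow_le_pow_of_le_one hz0.le hz1 (by omega)
      _ = ((C.filter (fun c => ¬ c.length ≤ M)).card : ℝ) * ((b : ℝ) / a) ^ (M + 1) := by
          rw [Finset.sum_const, nsmul_eq_mul]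
      _ ≤ k * ((b : ℝ) / a) ^ (M + 1) := by
          refine mul_le_mul_of_nonneg_right ?_ (by positivity)
          exact_mod_cast (Finset.card_le_card (Finset.filter_subset _ _)).trans hk
  rw [e1] at hI
  rw [e2] at hwt
  linarith

end Pool.Agent.Helper37.KW
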