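import Pool.Agent.Helper37.KW.St

set_option autoImplicit false

namespace Pool.Agent.Helper37.KW

open Pool.Agent.Helper31.BD Pool.Agent.Helper84.LD

theorem hSND (h1 : StTS) (h2 : StFT) (h3 : StSM) : StSND := by
  intro x k M a b n u w v h
  rcases h with h | h | h | h | h
  · exact h3 x k M a b n u h
  · rintro ⟨C, -, -, hC⟩
    rw [hC] at h
    exact h.2 ((h2 C).1 u w v h.1)
  · rintro ⟨C, -, -, hC⟩
    obtain ⟨hu, hv, hs⟩ := h
    have ht : ∃ w, u ++ w ++ v ∈ LX x := by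
      rw [hC] at hu hv ⊢
      exact (h2 C).2 u hu v hv
    obtain ⟨w', hw1, hw2, hw3⟩ := h1 x u v ht
    exact hs w' ((mem_wdLe _ _ _).2 ⟨hw2, hw1⟩) hw3
  · rintro ⟨C, -, hk, hC⟩
    obtain ⟨hk0, ha⟩ := h
    have hC0 : C = ∅ := Finset.card_eq_zero.1 (by omega)
    rw [hC, hC0] at ha
    obtain ⟨p, q, l, hl, he⟩ := ha
    have hl0 : l = [] := List.eq_nil_iff_forall_not_mem.2 fun c hc => by
      have := hl c hc
      simp at this
    subst hl0
    simp at he
  · rintro ⟨C, -, -, hC⟩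
    rw [hC] at h
    exact h (nil_mem_Fac C)

end Pool.Agent.Helper37.KW
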