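import Pool.Agent.Helper37.KW.St

/-!
# Project KW: module TS (short connections)
-/

set_option autoImplicit false

namespace Pool.Agent.Helper37.KW

open Pool.Agent.Helper31.BD Pool.Agent.Helper84.LD

theorem hTS (h1 : StSHO) : StTS := by
  intro x u v hw
  obtain ⟨w, hw⟩ := hw
  have hlt := LX_lt hw
  have hwlt : ∀ a ∈ w, a < x.1 := fun a ha => hlt a (by simp [ha])
  have hult : ∀ a ∈ u, a < x.1 := fun a ha => hlt a (by simp [ha])
  have hvlt : ∀ a ∈ v, a < x.1 := fun a ha => hlt a (by simp [ha])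
  obtain ⟨w', hw'lt, hw'len, hst⟩ := h1 x u w hwlt
  refine ⟨w', hw'lt, hw'len, ?_⟩
  have h2 : mk_st x (u ++ w ++ v) = mk_st x (u ++ w' ++ v) := (st_app hst v).symm
  exact mem_LX_of_st h2 hw (lt_app (lt_app hult hw'lt) hvlt)

end Pool.Agent.Helper37.KW
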