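import Pool.Agent.Helper37.KW.St

/-!
# Project KW, module UD: bounded double factorisations
-/

set_option autoImplicit false

namespace Pool.Agent.Helper37.KW

open Pool.Agent.Helper31.BD Pool.Agent.Helper84.LD

theorem UD_cut (l : List (List ℕ)) (u v : List ℕ) (h : u ++ v = l.flatten) (hv : v ≠ []) :
    ∃ (a b : List (List ℕ)) (c t s : List ℕ), l = a ++ c :: b ∧ u = a.flatten ++ t ∧ c = t ++ s ∧
      s ≠ [] := by
  induction l generalizing u with
  | nil =>
    exfalso
    simp only [List.flatten_nil, List.append_eq_nil_iff] at h
    exact hv h.2
  | cons d l ih =>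
    rw [List.flatten_cons] at h
    by_cases hlt : u.length < d.length
    · refine ⟨[], l, d, u, d.drop u.length, rfl, by simp, ?_, ?_⟩
      · have h1 : u = d.take u.length := by
          have := congrArg (List.take u.length) h
          rw [List.take_left', List.take_append_of_le_length hlt.le] at this
          · exact this
          · rfl
        conv_lhs => rw [← List.take_append_drop u.length d]
        rw [← h1]
      · intro h1
        have := congrArg List.length h1
        rw [List.length_drop, List.length_nil] at this
        omega
    · have hle : d.length ≤ u.length := by omega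
      have h1 : u.take d.length = d := by
        have := congrArg (List.take d.length) h
        rw [List.take_append_of_le_length hle, List.take_left'] at this
        · exact this
        · rfl
      have h2 : u.drop d.length ++ v = l.flatten := by
        have := congrArg (List.drop d.length) h
        rw [List.drop_append_of_le_length hle, List.drop_left'] at this
        · exact this
        · rfl
      obtain ⟨a, b, c, t, s, e1, e2, e3, e4⟩ := ih _ h2
      refine ⟨d :: a, b, c, t, s, by rw [e1]; rfl, ?_, e3, e4⟩
      rw [List.flatten_cons, List.append_assoc, ← e2]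
      conv_lhs => rw [← List.take_append_drop d.length u]
      rw [h1]

theorem UD_pos {C : List (List ℕ)} (hnil : [] ∉ C) {l : List (List ℕ)} (h : ∀ c ∈ l, c ∈ C)
    (hl : l ≠ []) : l.flatten ≠ [] := by
  cases l with
  | nil => exact absurd rfl hl
  | cons c l =>
    intro h2
    rw [List.flatten_cons, List.append_eq_nil_iff] at h2
    apply hnil
    rw [← h2.1]
    exact h c List.mem_cons_self

/-- the proper beginnings of the words of `C` -/
def UD_T (C : List (List ℕ)) : Finset (List ℕ) :=
  (C.flatMap fun c => (List.range c.length).map fun k => c.take k).toFinset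

theorem UD_T_card (C : List (List ℕ)) : (UD_T C).card ≤ D0 C := by
  refine (List.toFinset_card_le _).trans ?_
  rw [List.length_flatMap]
  unfold D0
  rw [List.length_flatten]
  have : (C.map fun c => ((List.range c.length).map fun k => c.take k).length) =
      C.map List.length := by
    apply List.map_congr_left
    intro c _
    rw [List.length_map, List.length_range]
  rw [this]
  omega

theorem UD_len (C : List (List ℕ)) (hnil : [] ∉ C) (l1 l2 : List (List ℕ))
    (h1 : ∀ c ∈ l1, c ∈ C) (h2 : ∀ c ∈ l2, c ∈ C) (hf : l1.flatten = l2.flatten) (hne : l1 ≠ l2)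
    (IH : ∀ m1 m2 : List (List ℕ), (∀ c ∈ m1, c ∈ C) → (∀ c ∈ m2, c ∈ C) →
      m1.flatten = m2.flatten → m1.flatten.length < l1.flatten.length → m1 = m2) :
    l1.length < D0 C + 3 := by
  classical
  by_contra hlen
  push Not at hlen
  -- heads differ
  have hhead : ∀ (c : List ℕ) (m1 m2 : List (List ℕ)), l1 = c :: m1 → l2 = c :: m2 → False := by
    intro c m1 m2 e1 e2
    apply hne
    rw [e1, e2]
    rw [e1, e2, List.flatten_cons, List.flatten_cons] at hf
    have hc : c ≠ [] := by
      intro h0
      apply hnil
      rw [← h0]
      exact h1 c (by rw [e1]; exact List.mem_cons_self)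
    congr 1
    apply IH m1 m2
    · intro d hd
      exact h1 d (by rw [e1]; exact List.mem_cons_of_mem _ hd)
    · intro d hd
      exact h2 d (by rw [e2]; exact List.mem_cons_of_mem _ hd)
    · exact List.append_cancel_left hf
    · rw [e1, List.flatten_cons, List.length_append]
      have : 0 < c.length := List.length_pos_iff.mpr hc
      omega
  have hcut : ∀ i : ℕ, i < l1.length → ∃ (a b : List (List ℕ)) (c t s : List ℕ),
      l2 = a ++ c :: b ∧ (l1.take i).flatten = a.flatten ++ t ∧ c = t ++ s ∧ s ≠ [] := by
    intro i hi
    apply UD_cut l2 (l1.take i).flatten (l1.drop i).flatten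
    · rw [← List.flatten_append, List.take_append_drop, hf]
    · apply UD_pos hnil
      · intro c hc
        exact h1 c (List.mem_of_mem_drop hc)
      · intro h0
        have := congrArg List.length h0
        rw [List.length_drop, List.length_nil] at this
        omega
  have hcut' : ∀ i : ℕ, ∃ (a b : List (List ℕ)) (c t s : List ℕ), i < l1.length →
      l2 = a ++ c :: b ∧ (l1.take i).flatten = a.flatten ++ t ∧ c = t ++ s ∧ s ≠ [] := by
    intro i
    by_cases hi : i < l1.length
    · obtain ⟨a, b, c, t, s, h⟩ := hcut i hi
      exact ⟨a, b, c, t, s, fun _ => h⟩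
    · exact ⟨[], [], [], [], [], fun h => absurd h hi⟩
  choose a b c t s hs using hcut'
  have hmap : ∀ i ∈ Finset.Ico 1 l1.length, t i ∈ UD_T C := by
    intro i hi
    rw [Finset.mem_Ico] at hi
    obtain ⟨e1, -, e3, e4⟩ := hs i hi.2
    have hc : c i ∈ C := h2 _ (by rw [e1]; simp)
    unfold UD_T
    rw [List.mem_toFinset, List.mem_flatMap]
    refine ⟨c i, hc, ?_⟩
    rw [List.mem_map]
    refine ⟨(t i).length, ?_, ?_⟩
    · rw [List.mem_range, e3, List.length_append]
      have : 0 < (s i).length := List.length_pos_iff.mpr e4
      omega
    · rw [e3, List.take_left']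
      rfl
  have hcard : (UD_T C).card < (Finset.Ico 1 l1.length).card := by
    rw [Nat.card_Ico]
    have := UD_T_card C
    omega
  obtain ⟨i, hi, j, hj, hij, ht⟩ := Finset.exists_ne_map_eq_of_card_lt_of_maps_to hcard hmap
  -- two indices i < j with the same remainder give a contradiction
  have key : ∀ i j : ℕ, 1 ≤ i → i < j → j < l1.length → t i = t j → False := by
    intro i j hi1 hij hj ht
    obtain ⟨e1, e2, e3, e4⟩ := hs i (hij.trans hj)
    obtain ⟨g1, g2, g3, g4⟩ := hs j hj
    have hsplit : l1.flatten = (l1.take j).flatten ++ (l1.drop j).flatten := by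
      rw [← List.flatten_append, List.take_append_drop]
    have q1 : (c j :: b j).flatten = t j ++ (l1.drop j).flatten := by
      have : (a j).flatten ++ (c j :: b j).flatten = (a j).flatten ++ (t j ++ (l1.drop j).flatten) := by
        rw [← List.flatten_append, ← g1, ← hf, hsplit, g2, List.append_assoc]
      exact List.append_cancel_left this
    have q2 : (l1.take i ++ l1.drop j) = (a i ++ (c j :: b j)) := by
      apply IH
      · intro d hd
        rcases List.mem_append.1 hd with h | h
        · exact h1 d (List.mem_of_mem_take h)
        · exact h1 d (List.mem_of_mem_drop h)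
      · intro d hd
        rcases List.mem_append.1 hd with h | h
        · exact h2 d (by rw [e1]; exact List.mem_append_left _ h)
        · exact h2 d (by rw [g1]; exact List.mem_append_right _ h)
      · rw [List.flatten_append, List.flatten_append, e2, q1, ht, List.append_assoc]
      · rw [hsplit, List.flatten_append, List.length_append, List.length_append]
        have hsp : l1.take j = l1.take i ++ (l1.take j).drop i := by
          have h5 : (l1.take j).take i = l1.take i := by
            rw [List.take_take]
            congr 1
            omega
          conv_lhs => rw [← List.take_append_drop i (l1.take j)]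
          rw [h5]
        have hpos : ((l1.take j).drop i).flatten ≠ [] := by
          apply UD_pos hnil
          · intro d hd
            exact h1 d (List.mem_of_mem_take (List.mem_of_mem_drop hd))
          · intro h0
            have := congrArg List.length h0
            rw [List.length_drop, List.length_take, List.length_nil] at this
            omega
        have hpos' : 0 < ((l1.take j).drop i).flatten.length := List.length_pos_iff.mpr hpos
        have h6 : (l1.take j).flatten.length = (l1.take i).flatten.length +
            ((l1.take j).drop i).flatten.length := by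
          conv_lhs => rw [hsp]
          rw [List.flatten_append, List.length_append]
        omega
    cases hl1 : l1 with
    | nil =>
      rw [hl1] at hj
      simp at hj
    | cons d1 m1 =>
      have hi' : l1.take i = d1 :: m1.take (i - 1) := by
        rw [hl1]
        obtain ⟨i', rfl⟩ : ∃ i', i = i' + 1 := ⟨i - 1, by omega⟩
        simp
      cases ha : a i with
      | nil =>
        rw [ha, hi'] at q2
        simp only [List.cons_append, List.nil_append, List.cons.injEq] at q2
        rw [ha, hi'] at e2
        simp only [List.flatten_cons, List.flatten_nil, List.nil_append] at e2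
        have l1' := congrArg List.length e2
        rw [List.length_append] at l1'
        have l2' := congrArg List.length g3
        rw [List.length_append, ← ht, ← q2.1] at l2'
        have : 0 < (s j).length := List.length_pos_iff.mpr g4
        omega
      | cons a0 a' =>
        rw [ha, hi'] at q2
        simp only [List.cons_append, List.cons.injEq] at q2
        rw [ha] at e1
        exact hhead d1 m1 (a' ++ c i :: b i) hl1 (by rw [e1, q2.1]; rfl)
  rw [Finset.mem_Ico] at hi hj
  rcases lt_or_gt_of_ne hij with h | h
  · exact key i j hi.1 h hj.2 ht
  · exact key j i hj.1 h hi.2 ht.symm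

/-- **UD** -/
theorem hUD : StUD := by
  intro C
  constructor
  · intro hX
    have hnil : [] ∉ C := by
      intro h0
      have := hX 1 (by omega) 0 (by omega) [[]] ((mem_pw C 1 _).2 ⟨rfl, by simpa using h0⟩) []
        ((mem_pw C 0 _).2 ⟨rfl, by simp⟩) (by simp)
      simp at this
    have main : ∀ n : ℕ, ∀ l1 l2 : List (List ℕ), (∀ c ∈ l1, c ∈ C) → (∀ c ∈ l2, c ∈ C) →
        l1.flatten = l2.flatten → l1.flatten.length = n → l1 = l2 := by
      intro n
      induction n using Nat.strong_induction_on with
      | _ n ih =>
        intro l1 l2 h1 h2 hf hn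
        by_contra hne
        have IH : ∀ m1 m2 : List (List ℕ), (∀ c ∈ m1, c ∈ C) → (∀ c ∈ m2, c ∈ C) →
            m1.flatten = m2.flatten → m1.flatten.length < l1.flatten.length → m1 = m2 := by
          intro m1 m2 g1 g2 g3 g4
          exact ih _ (by rw [← hn]; exact g4) m1 m2 g1 g2 g3 rfl
        have b1 := UD_len C hnil l1 l2 h1 h2 hf hne IH
        have b2 := UD_len C hnil l2 l1 h2 h1 hf.symm (Ne.symm hne)
          (fun m1 m2 g1 g2 g3 g4 => IH m1 m2 g1 g2 g3 (by rw [hf]; exact g4))
        exact hne (hX l1.length b1 l2.length b2 l1 ((mem_pw C _ _).2 ⟨rfl, h1⟩) l2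
          ((mem_pw C _ _).2 ⟨rfl, h2⟩) hf)
    intro l1 l2 h1 h2 hf
    exact main _ l1 l2 (fun c hc => List.mem_toFinset.1 (h1 c hc))
      (fun c hc => List.mem_toFinset.1 (h2 c hc)) hf rfl
  · intro hU i _ j _ l1 hl1 l2 hl2 hf
    exact hU l1 l2 (fun c hc => List.mem_toFinset.2 (((mem_pw C _ _).1 hl1).2 c hc))
      (fun c hc => List.mem_toFinset.2 (((mem_pw C _ _).1 hl2).2 c hc)) hf

end Pool.Agent.Helper37.KW
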