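import Pool.Agent.Helper37.KW.St

/-!
# Project KW, module ZER: zero entropy
-/

set_option autoImplicit false

namespace Pool.Agent.Helper37.KW

open Pool.Agent.Helper31.BD Pool.Agent.Helper84.LD

/-- closed walk words -/
def zeC (x : Inp) (u d : List ℕ) : Prop :=
  (∀ a ∈ d, a < x.1) ∧ mk_st x (u ++ d) = mk_st x u

theorem zeC_app {x : Inp} {u d d' : List ℕ} (h : zeC x u d) (h' : zeC x u d') :
    zeC x u (d ++ d') := by
  refine ⟨lt_app h.1 h'.1, ?_⟩
  rw [← List.append_assoc, st_app h.2 d', h'.2]

theorem zeC_rep {x : Inp} {u d : List ℕ} (h : zeC x u d) (n : ℕ) :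
    zeC x u (List.replicate n d).flatten := by
  induction n with
  | zero => exact ⟨by simp, by simp⟩
  | succ n ih =>
    rw [List.replicate_succ, List.flatten_cons]
    exact zeC_app h ih

theorem zeC_uniq {x : Inp} {u : List ℕ} (hc : ∀ n, cl x u n ≤ 1) {d d' : List ℕ}
    (h : zeC x u d) (h' : zeC x u d') (hl : d.length = d'.length) : d = d' := by
  classical
  have h1 := hc d'.length
  rw [cl_eq, Finset.card_le_one] at h1
  exact h1 d (mem_cl.2 ⟨hl, h.1, h.2⟩) d' (mem_cl.2 ⟨rfl, h'.1, h'.2⟩)

theorem zeC_len (d : List ℕ) (n : ℕ) : (List.replicate n d).flatten.length = n * d.length := by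
  induction n with
  | zero => simp
  | succ n ih =>
    rw [List.replicate_succ, List.flatten_cons, List.length_append, ih]
    ring

theorem hZER : StZER := by
  intro x u hF hR hc hex
  obtain ⟨t, ht, htn⟩ := hex
  obtain ⟨w, w', _, _, hw, hw', hwt, hst⟩ := hR.2 t ht
  have hd0 : zeC x u (w ++ t ++ w') := by
    refine ⟨lt_app (lt_app hw (LX_lt ht)) hw', ?_⟩
    have : u ++ (w ++ t ++ w') = u ++ w ++ t ++ w' := by simp [List.append_assoc]
    rw [this]; exact hst
  have hne : w ++ t ++ w' ≠ [] := by
    intro h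
    have h2 := congrArg List.length h
    simp only [List.length_append, List.length_nil] at h2
    have h3 : t.length = 0 := by omega
    exact htn (List.length_eq_zero_iff.1 h3)
  generalize w ++ t ++ w' = d0 at hd0 hne
  refine ⟨d0, hne, ?_⟩
  apply Set.Subset.antisymm
  · intro t' ht'
    obtain ⟨w1, w1', _, _, hw1, hw1', hwt1, hst1⟩ := hR.2 t' ht'
    have hd1 : zeC x u (w1 ++ t' ++ w1') := by
      refine ⟨lt_app (lt_app hw1 (LX_lt ht')) hw1', ?_⟩
      have : u ++ (w1 ++ t' ++ w1') = u ++ w1 ++ t' ++ w1' := by simp [List.append_assoc]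
      rw [this]; exact hst1
    have heq : (List.replicate d0.length (w1 ++ t' ++ w1')).flatten =
        (List.replicate (w1 ++ t' ++ w1').length d0).flatten := by
      apply zeC_uniq hc (zeC_rep hd1 _) (zeC_rep hd0 _)
      rw [zeC_len, zeC_len]; ring
    obtain ⟨m, hm⟩ : ∃ m, d0.length = m + 1 :=
      ⟨d0.length - 1, by have := List.length_pos_iff.2 hne; omega⟩
    rw [hm, List.replicate_succ, List.flatten_cons] at heq
    refine ⟨w1, w1' ++ (List.replicate m (w1 ++ t' ++ w1')).flatten,
      List.replicate (w1 ++ t' ++ w1').length d0, ?_, ?_⟩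
    · intro c hcm
      rw [List.eq_of_mem_replicate hcm]
      exact Finset.mem_singleton_self _
    · rw [← heq]
      simp [List.append_assoc]
  · rintro w ⟨u', v', l, hl, hlf⟩
    have hrep : l = List.replicate l.length d0 :=
      List.eq_replicate_of_mem (fun c hcm => Finset.mem_singleton.1 (hl c hcm))
    have hz : zeC x u l.flatten := by
      rw [hrep]; exact zeC_rep hd0 _
    have hmem : u ++ l.flatten ∈ LX x :=
      mem_LX_of_st hz.2.symm hR.1 (lt_app (LX_lt hR.1) hz.1)
    apply hF (u ++ u') w v'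
    have : u ++ u' ++ w ++ v' = u ++ (u' ++ w ++ v') := by simp [List.append_assoc]
    rw [this, hlf]
    exact hmem

end Pool.Agent.Helper37.KW
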