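import Pool.Agent.Helper37.KW.M_SHO
import Pool.Agent.Helper37.KW.M_TS
import Pool.Agent.Helper37.KW.M_REC
import Pool.Agent.Helper37.KW.M_CM
import Pool.Agent.Helper37.KW.M_CL
import Pool.Agent.Helper37.KW.M_RC
import Pool.Agent.Helper37.KW.M_NUM
import Pool.Agent.Helper37.KW.M_GAP
import Pool.Agent.Helper37.KW.M_CHO
import Pool.Agent.Helper37.KW.M_INE
import Pool.Agent.Helper37.KW.M_GR
import Pool.Agent.Helper37.KW.M_INF
import Pool.Agent.Helper37.KW.M_ZER
import Pool.Agent.Helper37.KW.M_KU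
import Pool.Agent.Helper37.KW.M_KL
import Pool.Agent.Helper37.KW.M_ENT
import Pool.Agent.Helper37.KW.M_FT
import Pool.Agent.Helper37.KW.M_UD
import Pool.Agent.Helper37.KW.M_PRD
import Pool.Agent.Helper37.KW.M_POS
import Pool.Agent.Helper37.KW.M_SM
import Pool.Agent.Helper37.KW.M_SND
import Pool.Agent.Helper37.KW.M_CM1
import Pool.Agent.Helper37.KW.M_CMP
import Pool.Agent.Helper37.KW.M_FIN
import Pool.Agent.Helper37.KW.M_P1
import Pool.Agent.Helper37.KW.M_P2
import Pool.Agent.Helper37.KW.M_P3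
import Pool.Agent.Helper37.KW.M_DEC

/-!
# Project KW: assembly
-/

set_option autoImplicit false

namespace Pool.Agent.Helper37.KW

open Pool.Agent.Helper31.BD

theorem fTS : StTS := hTS hSHO
theorem fREC : StREC := hREC hSHO fTS
theorem fGR : StGR := hGR fREC hCM hCL hRC hNUM
theorem fENT : StENT := hENT fTS
theorem fPOS : StPOS := hPOS hUD
theorem fSM : StSM := hSM hCL hKL hFT hUD hPRD hINE
theorem fSND : StSND := hSND fTS hFT fSM
theorem fCM1 : StCM1 := hCM1 hGAP hCHO hINE hKU fENT hUD hPRD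
theorem fCMP : StCMP := hCMP hINF fGR hZER fCM1
theorem fFIN : StFIN := hFIN hFT hINF fGR hZER hGAP hKU hKL
theorem fP3 : StP3 := hP3 hP1 hP2
theorem fDEC : StDEC := hDEC fP3 fPOS fCMP fSND

theorem final :
    ∃ f : (ℕ × List ℕ × ℕ × List ℕ) × ℕ → Bool, Computable f ∧
      ∀ (x : ℕ × List ℕ × ℕ × List ℕ) (k : ℕ), (f (x, k) = true ↔
        ∃ C : Finset (List ℕ), UD C ∧ C.card ≤ k ∧ LX x = Fac C) :=
  fDEC

end Pool.Agent.Helper37.KW
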