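import Pool.Agent.Helper37.KW.St

/-!
# Project KW, module KU: Kraft inequality
-/

set_option autoImplicit false

namespace Pool.Agent.Helper37.KW

open Pool.Agent.Helper31.BD Pool.Agent.Helper84.LD

/-- products of `j` words of `C` -/
def KU_F (C : Finset (List ℕ)) : ℕ → Finset (List ℕ)
  | 0 => {[]}
  | j + 1 => (C ×ˢ KU_F C j).image fun p => p.1 ++ p.2

theorem KU_mem {C : Finset (List ℕ)} (j : ℕ) : ∀ {w : List ℕ}, w ∈ KU_F C j →
    ∃ l : List (List ℕ), Over C l ∧ l.length = j ∧ l.flatten = w := by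
  induction j with
  | zero =>
    intro w hw
    rw [KU_F, Finset.mem_singleton] at hw
    exact ⟨[], over_nil C, rfl, by rw [hw]; rfl⟩
  | succ j ih =>
    intro w hw
    rw [KU_F, Finset.mem_image] at hw
    obtain ⟨⟨c, w'⟩, hp, he⟩ := hw
    rw [Finset.mem_product] at hp
    obtain ⟨l, h1, h2, h3⟩ := ih hp.2
    refine ⟨c :: l, ?_, ?_, ?_⟩
    · intro d hd
      rcases List.mem_cons.1 hd with h | h
      · rw [h]; exact hp.1
      · exact h1 d h
    · rw [List.length_cons, h2]
    · rw [List.flatten_cons, h3]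
      exact he

theorem KU_sum {C : Finset (List ℕ)} (hC : UD C) (z : ℝ) (j : ℕ) :
    ∑ w ∈ KU_F C j, z ^ w.length = (wt C z) ^ j := by
  induction j with
  | zero => simp [KU_F]
  | succ j ih =>
    rw [KU_F, Finset.sum_image]
    · rw [Finset.sum_product]
      rw [pow_succ, ← ih, mul_comm, wt, Finset.sum_mul]
      apply Finset.sum_congr rfl
      intro c _
      rw [Finset.mul_sum]
      apply Finset.sum_congr rfl
      intro w _
      rw [List.length_append, pow_add]
    · rintro ⟨c, w⟩ hp ⟨c', w'⟩ hp' he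
      have hp1 := Finset.mem_product.1 hp
      have hp2 := Finset.mem_product.1 hp'
      obtain ⟨l, h1, _, h3⟩ := KU_mem j hp1.2
      obtain ⟨l', h1', _, h3'⟩ := KU_mem j hp2.2
      simp only at h3 h3' he
      have hov : ∀ {d : List ℕ} {m : List (List ℕ)}, d ∈ C → Over C m → Over C (d :: m) := by
        intro d m hd hm e he
        rcases List.mem_cons.1 he with h | h
        · rw [h]; exact hd
        · exact hm e h
      have hk := hC (c :: l) (c' :: l') (hov hp1.1 h1) (hov hp2.1 h1') (by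
        rw [List.flatten_cons, List.flatten_cons, h3, h3']
        exact he)
      have hk2 := List.cons.inj hk
      rw [Prod.mk.injEq]
      exact ⟨hk2.1, by rw [← h3, ← h3', hk2.2]⟩

theorem KU_len {C : Finset (List ℕ)} {M : ℕ} (hM : ∀ c ∈ C, c.length ≤ M) (j : ℕ) :
    ∀ w ∈ KU_F C j, w.length ≤ j * M := by
  induction j with
  | zero =>
    intro w hw
    rw [KU_F, Finset.mem_singleton] at hw
    rw [hw]; simp
  | succ j ih =>
    intro w hw
    rw [KU_F, Finset.mem_image] at hw
    obtain ⟨⟨c, w'⟩, hp, he⟩ := hw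
    rw [Finset.mem_product] at hp
    simp only at he hp
    rw [← he, List.length_append]
    have h1 := hM c hp.1
    have h2 := ih w' hp.2
    rw [Nat.succ_mul]
    omega

theorem KU_bound {L : Set (List ℕ)} {N : ℕ} {la K : ℝ} (hN : ∀ w ∈ L, ∀ a ∈ w, a < N)
    (hG : Gr L la K) {C : Finset (List ℕ)} (hL : ∀ l, Over C l → l.flatten ∈ L) {M : ℕ}
    (hM : ∀ c ∈ C, c.length ≤ M) (j : ℕ) :
    ∑ w ∈ KU_F C j, (la⁻¹) ^ w.length ≤ K * (j * M + 1) := by
  classical
  have hla : 0 < la := lt_of_lt_of_le one_pos hG.one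
  have hmaps : ∀ w ∈ KU_F C j, w.length ∈ Finset.range (j * M + 1) := by
    intro w hw
    rw [Finset.mem_range]
    have := KU_len hM j w hw
    omega
  rw [← Finset.sum_fiberwise_of_maps_to hmaps]
  calc ∑ m ∈ Finset.range (j * M + 1), ∑ w ∈ (KU_F C j).filter (fun w => w.length = m),
        (la⁻¹) ^ w.length ≤ ∑ m ∈ Finset.range (j * M + 1), K := by
        apply Finset.sum_le_sum
        intro m _
        have h1 : ∑ w ∈ (KU_F C j).filter (fun w => w.length = m), (la⁻¹) ^ w.length
            = ((KU_F C j).filter (fun w => w.length = m)).card * (la⁻¹) ^ m := by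
          rw [Finset.sum_congr rfl (g := fun _ => (la⁻¹) ^ m)]
          · rw [Finset.sum_const, nsmul_eq_mul]
          · intro w hw
            rw [(Finset.mem_filter.1 hw).2]
        rw [h1]
        have h2 : (((KU_F C j).filter (fun w => w.length = m)).card : ℝ) ≤ (cnt L m : ℝ) := by
          apply Nat.cast_le.2
          apply card_le_cnt hN
          intro w hw
          have hw' := Finset.mem_filter.1 hw
          obtain ⟨l, k1, _, k3⟩ := KU_mem j hw'.1
          exact ⟨by rw [← k3]; exact hL l k1, hw'.2⟩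
        have h3 : 0 < (la⁻¹) ^ m := pow_pos (inv_pos.2 hla) m
        calc (((KU_F C j).filter (fun w => w.length = m)).card : ℝ) * (la⁻¹) ^ m
            ≤ (K * la ^ m) * (la⁻¹) ^ m :=
              mul_le_mul_of_nonneg_right (le_trans h2 (hG.hi m)) h3.le
          _ = K := by
              rw [mul_assoc, ← mul_pow, mul_inv_cancel₀ hla.ne', one_pow, mul_one]
    _ = K * (j * M + 1) := by
        rw [Finset.sum_const, Finset.card_range, nsmul_eq_mul]
        push_cast
        ring

theorem hKU : StKU := by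
  intro L N la K hN hG C hC hL
  have hla : 0 < la := lt_of_lt_of_le one_pos hG.one
  obtain ⟨M, hM⟩ : ∃ M : ℕ, ∀ c ∈ C, c.length ≤ M :=
    ⟨C.sup List.length, fun c hc => Finset.le_sup (f := List.length) hc⟩
  by_contra hlt
  have hlt1 : 1 < wt C la⁻¹ := not_le.1 hlt
  set s := wt C la⁻¹ with hs
  have hb : ∀ j : ℕ, s ^ j ≤ K * (j * M + 1) := by
    intro j
    rw [← KU_sum hC la⁻¹ j]
    exact KU_bound hN hG hL hM j
  have t1 := tendsto_pow_const_div_const_pow_of_one_lt 1 hlt1
  have t0 := tendsto_pow_const_div_const_pow_of_one_lt 0 hlt1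
  have t : Filter.Tendsto (fun j : ℕ => K * M * ((j : ℝ) ^ 1 / s ^ j) + K * ((j : ℝ) ^ 0 / s ^ j))
      Filter.atTop (nhds (K * M * 0 + K * 0)) := (t1.const_mul _).add (t0.const_mul _)
  rw [mul_zero, mul_zero, add_zero] at t
  obtain ⟨j, hj⟩ := (t.eventually (gt_mem_nhds (zero_lt_one))).exists
  have hsj : 0 < s ^ j := pow_pos (lt_trans one_pos hlt1) j
  have h1 := hb j
  have h2 : K * M * ((j : ℝ) ^ 1 / s ^ j) + K * ((j : ℝ) ^ 0 / s ^ j)
      = (K * (j * M + 1)) / s ^ j := by
    field_simp
  rw [h2, div_lt_one hsj] at hj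
  linarith

end Pool.Agent.Helper37.KW
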