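import Pool.Agent.Helper37.KW.St

set_option autoImplicit false

namespace Pool.Agent.Helper37.KW

open Pool.Agent.Helper31.BD Pool.Agent.Helper84.LD

theorem P3_pow : Primrec₂ fun a n : ℕ => a ^ n := by
  have h : Primrec₂ fun (a : ℕ) (t : ℕ) => (Nat.rec 1 (fun _ y => y * a) t : ℕ) := by
    refine Primrec.nat_rec (f := fun _ : ℕ => (1 : ℕ))
      (g := fun (a : ℕ) (x : ℕ × ℕ) => x.2 * a) (Primrec.const 1) ?_
    exact Primrec.nat_mul.comp (Primrec.snd.comp Primrec.snd) Primrec.fst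
  refine h.of_eq fun a t => ?_
  induction t with
  | zero => rfl
  | succ t ih => rw [pow_succ, ← ih]

theorem P3_KK : Primrec fun x : Inp × List (List ℕ) => KK x.1 x.2 :=
  Primrec.nat_mul.comp (mj_primrec_NN.comp Primrec.fst)
    (mj_primrec_pow2.comp (mj_primrec_D0.comp Primrec.snd))

theorem P3_PosP (h1 : StP1) : PrimrecPred fun q : Inp × ℕ × ℕ => PosP q.1 q.2.1 q.2.2 := by
  unfold PosP
  refine ctx_exists_mem (primrec_subs.comp (mj_primrec_wdLe.comp
    (Primrec.fst.comp Primrec.fst) (Primrec.snd.comp Primrec.snd))) ?_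
  refine PrimrecPred.and ?_ (PrimrecPred.and ?_ (PrimrecPred.and ?_ ?_))
  · exact Primrec.nat_lt.comp (Primrec.list_length.comp Primrec.snd)
      (Primrec.succ.comp (Primrec.fst.comp (Primrec.snd.comp Primrec.fst)))
  · exact (pp_mem (Primrec.const []) Primrec.snd).not
  · exact h1.1.comp Primrec.snd
  · refine ctx_forall_mem (mj_primrec_wdLe.comp
      (Primrec.fst.comp (Primrec.fst.comp Primrec.fst))
      (P3_KK.comp (Primrec.pair (Primrec.fst.comp Primrec.fst) Primrec.snd))) ?_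
    refine pp_iff ?_ ?_
    · exact mj_pp_LX.comp
        (Primrec.pair (Primrec.fst.comp (Primrec.fst.comp Primrec.fst)) Primrec.snd)
    · exact mj_pp_FacX.comp (Primrec.pair (Primrec.snd.comp Primrec.fst) Primrec.snd)

/-- the arguments `x, (k, M), (a, b, n), u` -/
theorem P3_NegM (h1 : StP1) (h2 : StP2) :
    PrimrecPred fun q : Inp × (ℕ × ℕ) × (ℕ × ℕ × ℕ) × List ℕ =>
      NegM q.1 q.2.1.1 q.2.1.2 q.2.2.1.1 q.2.2.1.2.1 q.2.2.1.2.2 q.2.2.2 := by
  have hx : Primrec fun q : Inp × (ℕ × ℕ) × (ℕ × ℕ × ℕ) × List ℕ => q.1 := Primrec.fst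
  have hk : Primrec fun q : Inp × (ℕ × ℕ) × (ℕ × ℕ × ℕ) × List ℕ => q.2.1.1 :=
    Primrec.fst.comp (Primrec.fst.comp Primrec.snd)
  have hM : Primrec fun q : Inp × (ℕ × ℕ) × (ℕ × ℕ × ℕ) × List ℕ => q.2.1.2 :=
    Primrec.snd.comp (Primrec.fst.comp Primrec.snd)
  have ha : Primrec fun q : Inp × (ℕ × ℕ) × (ℕ × ℕ × ℕ) × List ℕ => q.2.2.1.1 :=
    Primrec.fst.comp (Primrec.fst.comp (Primrec.snd.comp Primrec.snd))
  have hb : Primrec fun q : Inp × (ℕ × ℕ) × (ℕ × ℕ × ℕ) × List ℕ => q.2.2.1.2.1 :=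
    Primrec.fst.comp (Primrec.snd.comp (Primrec.fst.comp (Primrec.snd.comp Primrec.snd)))
  have hn : Primrec fun q : Inp × (ℕ × ℕ) × (ℕ × ℕ × ℕ) × List ℕ => q.2.2.1.2.2 :=
    Primrec.snd.comp (Primrec.snd.comp (Primrec.fst.comp (Primrec.snd.comp Primrec.snd)))
  have hu : Primrec fun q : Inp × (ℕ × ℕ) × (ℕ × ℕ × ℕ) × List ℕ => q.2.2.2 :=
    Primrec.snd.comp (Primrec.snd.comp Primrec.snd)
  unfold NegM
  refine PrimrecPred.and ?_ (PrimrecPred.and ?_ (PrimrecPred.and ?_ (PrimrecPred.and ?_ ?_)))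
  · exact Primrec.nat_lt.comp hb ha
  · exact Primrec.nat_lt.comp (Primrec.const 0) hn
  · exact mj_pp_LX.comp (Primrec.pair hx hu)
  · exact Primrec.nat_le.comp (P3_pow.comp ha hn)
      (Primrec.nat_mul.comp (h2.2.comp (Primrec.pair hx (Primrec.pair hu hn)))
        (P3_pow.comp hb hn))
  · refine ctx_forall_mem (primrec_subs.comp (mj_primrec_wdLe.comp
      (Primrec.fst.comp hx) hM)) ?_
    refine pp_imp ?_ (pp_imp ?_ (pp_imp ?_ ?_))
    · exact Primrec.nat_lt.comp (Primrec.list_length.comp Primrec.snd)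
        (Primrec.succ.comp (hk.comp Primrec.fst))
    · exact h1.1.comp Primrec.snd
    · exact h1.2.comp (Primrec.pair (hx.comp Primrec.fst) Primrec.snd)
    · exact h2.1.comp (Primrec.pair (Primrec.pair (ha.comp Primrec.fst) (hb.comp Primrec.fst))
        (Primrec.pair (Primrec.pair (hk.comp Primrec.fst) (hM.comp Primrec.fst)) Primrec.snd))

/-- the arguments `x, (k, M), (a, b, n), (u, w, v)` -/
theorem P3_NegP (h1 : StP1) (h2 : StP2) :
    PrimrecPred fun q : Inp × (ℕ × ℕ) × (ℕ × ℕ × ℕ) × (List ℕ × List ℕ × List ℕ) =>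
      NegP q.1 q.2.1.1 q.2.1.2 q.2.2.1.1 q.2.2.1.2.1 q.2.2.1.2.2
        q.2.2.2.1 q.2.2.2.2.1 q.2.2.2.2.2 := by
  have hx : Primrec fun q : Inp × (ℕ × ℕ) × (ℕ × ℕ × ℕ) × (List ℕ × List ℕ × List ℕ) => q.1 :=
    Primrec.fst
  have hkM : Primrec fun q : Inp × (ℕ × ℕ) × (ℕ × ℕ × ℕ) × (List ℕ × List ℕ × List ℕ) =>
      q.2.1 := Primrec.fst.comp Primrec.snd
  have habn : Primrec fun q : Inp × (ℕ × ℕ) × (ℕ × ℕ × ℕ) × (List ℕ × List ℕ × List ℕ) =>
      q.2.2.1 := Primrec.fst.comp (Primrec.snd.comp Primrec.snd)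
  have hu : Primrec fun q : Inp × (ℕ × ℕ) × (ℕ × ℕ × ℕ) × (List ℕ × List ℕ × List ℕ) =>
      q.2.2.2.1 := Primrec.fst.comp (Primrec.snd.comp (Primrec.snd.comp Primrec.snd))
  have hw : Primrec fun q : Inp × (ℕ × ℕ) × (ℕ × ℕ × ℕ) × (List ℕ × List ℕ × List ℕ) =>
      q.2.2.2.2.1 :=
    Primrec.fst.comp (Primrec.snd.comp (Primrec.snd.comp (Primrec.snd.comp Primrec.snd)))
  have hv : Primrec fun q : Inp × (ℕ × ℕ) × (ℕ × ℕ × ℕ) × (List ℕ × List ℕ × List ℕ) =>
      q.2.2.2.2.2 :=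
    Primrec.snd.comp (Primrec.snd.comp (Primrec.snd.comp (Primrec.snd.comp Primrec.snd)))
  unfold NegP
  refine PrimrecPred.or ?_ (PrimrecPred.or (PrimrecPred.and ?_ ?_)
    (PrimrecPred.or (PrimrecPred.and ?_ (PrimrecPred.and ?_ ?_))
      (PrimrecPred.or (PrimrecPred.and ?_ ?_) ?_)))
  · exact (P3_NegM h1 h2).comp (Primrec.pair hx (Primrec.pair hkM (Primrec.pair habn hu)))
  · exact mj_pp_LX.comp (Primrec.pair hx
      (Primrec.list_append.comp (Primrec.list_append.comp hu hw) hv))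
  · exact (mj_pp_LX.comp (Primrec.pair hx hw)).not
  · exact mj_pp_LX.comp (Primrec.pair hx hu)
  · exact mj_pp_LX.comp (Primrec.pair hx hv)
  · refine ctx_forall_mem (mj_primrec_wdLe.comp (Primrec.fst.comp hx)
      (mj_primrec_NN.comp hx)) ?_
    exact (mj_pp_LX.comp (Primrec.pair (hx.comp Primrec.fst)
      (Primrec.list_append.comp (Primrec.list_append.comp (hu.comp Primrec.fst) Primrec.snd)
        (hv.comp Primrec.fst)))).not
  · exact Primrec.eq.comp (Primrec.fst.comp hkM) (Primrec.const 0)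
  · exact mj_pp_LX.comp (Primrec.pair hx
      (Primrec.list_cons.comp (Primrec.fst.comp habn) (Primrec.const [])))
  · exact (mj_pp_LX.comp (Primrec.pair hx (Primrec.const []))).not

theorem hP3 (h1 : StP1) (h2 : StP2) : StP3 := by
  constructor
  · exact (P3_PosP h1).comp (Primrec.pair (Primrec.fst.comp Primrec.fst)
      (Primrec.pair (Primrec.snd.comp Primrec.fst)
        (Primrec.fst.comp (Primrec.fst.comp (Primrec.fst.comp Primrec.snd)))))
  · exact (P3_NegP h1 h2).comp (Primrec.pair (Primrec.fst.comp Primrec.fst)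
      (Primrec.pair
        (Primrec.pair (Primrec.snd.comp Primrec.fst)
          (Primrec.snd.comp (Primrec.fst.comp (Primrec.fst.comp Primrec.snd))))
        (Primrec.pair (Primrec.snd.comp (Primrec.fst.comp Primrec.snd))
          (Primrec.snd.comp Primrec.snd))))

end Pool.Agent.Helper37.KW
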