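import Pool.Agent.Helper37.KW.St

/-!
# Project KW: module SHO (short words between states)
-/

set_option autoImplicit false

namespace Pool.Agent.Helper37.KW

open Pool.Agent.Helper31.BD Pool.Agent.Helper84.LD

/-- one shortening step -/
theorem sho_step (x : Inp) (u w : List ℕ) (hw : ∀ a ∈ w, a < x.1) (hl : NN x < w.length) :
    ∃ w' : List ℕ, (∀ a ∈ w', a < x.1) ∧ w'.length < w.length ∧
      mk_st x (u ++ w') = mk_st x (u ++ w) := by
  obtain ⟨i, hi, j, hj, hij, he⟩ := Finset.exists_ne_map_eq_of_card_lt_of_maps_to
    (s := Finset.range (NN x + 1)) (t := Finset.range (x.2.1.length + 2))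
    (f := fun i => mk_num x (mk_st x (u ++ w.take i)))
    (by simp only [Finset.card_range, NN]; omega)
    (by
      intro i _
      exact Finset.mem_coe.2 (Finset.mem_range.2 (mk_num_lt x (u ++ w.take i))))
  wlog hlt : i < j generalizing i j
  · exact this j hj i hi (Ne.symm hij) he.symm (by omega)
  have hj' : j ≤ NN x := by
    have := Finset.mem_range.1 hj
    omega
  have hst : mk_st x (u ++ w.take i) = mk_st x (u ++ w.take j) := mk_num_inj x _ _ he
  refine ⟨w.take i ++ w.drop j, ?_, ?_, ?_⟩
  · intro a ha
    rcases List.mem_append.1 ha with h | h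
    · exact hw a (List.mem_of_mem_take h)
    · exact hw a (List.mem_of_mem_drop h)
  · rw [List.length_append, List.length_take, List.length_drop]
    omega
  · rw [← List.append_assoc, st_app hst (w.drop j), List.append_assoc, List.take_append_drop]

theorem hSHO : StSHO := by
  intro x u w hw
  induction hn : w.length using Nat.strong_induction_on generalizing w with
  | _ n ih =>
    by_cases hl : NN x < w.length
    · obtain ⟨w1, h1, h2, h3⟩ := sho_step x u w hw hl
      obtain ⟨w2, h4, h5, h6⟩ := ih w1.length (by omega) w1 h1 rfl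
      exact ⟨w2, h4, h5, h6.trans h3⟩
    · exact ⟨w, hw, by omega, rfl⟩

end Pool.Agent.Helper37.KW
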