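import Pool.Agent.Helper37.KW.Base

/-!
# Project KW (MP_93aa28_lc): statements of the modules, with complete proofs

THEOREM: it is decidable, given an automaton `x` and a number `k`, whether the language of `x` is the
factor set `F(C*)` of a code `C` with at most `k` words; and if the language is not `F(w*)` there are only
finitely many such codes.  `la` is the growth rate of the language, Kraft: `∑ la^(-|c|) = 1`.
Files: `Defs.lean` (definitions), `Base.lean` (basic lemmas: `st_app`, `mem_LX_of_st`, `card_le_cnt`,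
`fin_wds`, `cl_eq`, `mem_cl`, ...), and everything in `Pool/Agent/Helper31/BD/*.lean` (`mem_pw`, `mem_subs`,
`subs_nodup`, `mem_wdLe`, `wdLe_nodup`, `facX_iff`, `short_diff`, `D0_eq`, `few_LX`, `fac_infix`, `ud_nil`,
`fac_letters`, `mem_fac_self`, `primrec_subs`, `primrec_pw`, `mj_pp_FacX`, `mj_pp_LX`, ...).
-/

set_option autoImplicit false

namespace Pool.Agent.Helper37.KW

open Pool.Agent.Helper31.BD Pool.Agent.Helper84.LD

/-! ## the automaton -/

/-- Every state reachable from the state of `u` is reachable by a short word.  PROOF. Let `w'` be a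
shortest word over the letters `< x.1` with `mk_st x (u ++ w') = mk_st x (u ++ w)`.  If `w'.length > NN x`, two
of the `NN x + 1` words `u ++ w'.take i` (`i ≤ NN x`) have the same `mk_num x (mk_st x ·) < NN x` (`mk_num_lt`), so
the same state (`mk_num_inj`); deleting the part between them gives a shorter word (`st_app`). -/
def StSHO : Prop :=
  ∀ (x : Inp) (u w : List ℕ), (∀ a ∈ w, a < x.1) →
    ∃ w' : List ℕ, (∀ a ∈ w', a < x.1) ∧ w'.length ≤ NN x ∧ mk_st x (u ++ w') = mk_st x (u ++ w)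

/-- Short connections.  PROOF. `StSHO` for `u, w`; then `mk_st x (u ++ w' ++ v) = mk_st x (u ++ w ++ v)`. -/
def StTS : Prop :=
  ∀ (x : Inp) (u v : List ℕ), (∃ w, u ++ w ++ v ∈ LX x) →
    ∃ w : List ℕ, (∀ a ∈ w, a < x.1) ∧ w.length ≤ NN x ∧ u ++ w ++ v ∈ LX x

/-- Recurrent states exist.  PROOF. For `u ∈ LX x` let `R u = {mk_num x (mk_st x (u ++ v)) : u ++ v ∈ LX x}`, a
subset of `range (NN x)`; choose `u ∈ LX x` with `R u` of minimal cardinality (`[] ∈ LX x`).  Let `t ∈ LX x`: by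
transitivity and `StTS` there is a short `w` with `u1 = u ++ w ++ t ∈ LX x`; `R u1 ⊆ R u`, so they are equal and
`mk_num x (mk_st x u) ∈ R u ⊆ R u1` (take `v = []`): there is `v` with `mk_st x (u1 ++ v) = mk_st x u`
(`mk_num_inj`), `u1 ++ v ∈ LX x`; `StSHO` makes `v` short. -/
def StREC : Prop :=
  ∀ x : Inp, Trn (LX x) → [] ∈ LX x → ∃ u : List ℕ, Rec x u

/-- Submultiplicativity.  PROOF. `w ↦ (w.take m, w.drop m)` is injective into the pairs of words of the
language (`fct_left`, `fct_right`, `fin_wds`). -/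
def StCM : Prop :=
  ∀ (L : Set (List ℕ)) (N : ℕ), (∀ w ∈ L, ∀ a ∈ w, a < N) → Fct L →
    ∀ m n : ℕ, cnt L (m + n) ≤ cnt L m * cnt L n

/-- Closed walks.  PROOF. (`cl_eq`, `mem_cl`.)  The product of two closed walk words at the state of `u` is a
closed walk word (`st_app`), and ` (d, d') ↦ d ++ d'` is injective for fixed lengths.  A closed walk word `d`
is in the language: `u ++ d ∈ LX x` (`mem_LX_of_st`) and the language is factorial.  The last claim: `j`-fold
products, by induction ` (cl n)^j ≤ cl (n j)`. -/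
def StCL : Prop :=
  ∀ (x : Inp) (u : List ℕ), u ∈ LX x → Fct (LX x) →
    (∀ m n : ℕ, cl x u m * cl x u n ≤ cl x u (m + n)) ∧ (∀ n : ℕ, cl x u n ≤ cnt (LX x) n) ∧
      ∀ n j : ℕ, (cl x u n) ^ j ≤ cnt (LX x) (n * j)

/-- All words occur in closed walks of bounded excess.  PROOF. For every word `t` of length `m` of the
language choose `w, w'` as in `Rec`; `d = w ++ t ++ w'` is a closed walk word of length `m + i`, `i ≤ 2 NN x`, and
`t = (d.drop w.length).take m` is determined by ` (w.length, i, d)`. -/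
def StRC : Prop :=
  ∀ (x : Inp) (u : List ℕ), Rec x u →
    ∀ m : ℕ, cnt (LX x) m ≤ (NN x + 1) * ∑ i ∈ Finset.range (2 * NN x + 1), cl x u (m + i)

/-! ## numbers -/

/-- Growth.  PROOF. `u m = log (c m)` is subadditive; `la = exp (Subadditive.lim u)`: `la^m ≤ c m`
(`Subadditive.lim_le_div`), and `c(m)^(1/m) → la`.  ` (p n)^j ≤ p (n j) ≤ c (n j)` gives
`p n ≤ c(n j)^(1/j) → la^n` (for `n = 0`: ` (p 0)^2 ≤ p 0`).  So `c m ≤ A ∑_{i ≤ B} la^(m+i) ≤ A (B+1) la^B la^m`:
`K = max 1 (A (B+1) la^B)`.  If `p n < r^n` for all `n > 0` (`r < la`) then for `m ≥ 1`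
`la^m ≤ c m ≤ A (B+1) (max 1 r)^B r^m`, impossible for large `m`. -/
def StNUM : Prop :=
  ∀ (c p : ℕ → ℕ) (A B : ℕ), (∀ m, 1 ≤ c m) → (∀ m n, c (m + n) ≤ c m * c n) →
    (∀ m n, p m * p n ≤ p (m + n)) → (∀ n, p n ≤ c n) →
    (∀ m, c m ≤ A * ∑ i ∈ Finset.range (B + 1), p (m + i)) →
    ∃ la K : ℝ, 1 ≤ la ∧ 1 ≤ K ∧ (∀ m : ℕ, la ^ m ≤ (c m : ℝ)) ∧ (∀ m : ℕ, (c m : ℝ) ≤ K * la ^ m) ∧
      (∀ n : ℕ, (p n : ℝ) ≤ la ^ n) ∧ ∀ r : ℝ, 0 < r → r < la → ∃ n : ℕ, 0 < n ∧ r ^ n ≤ (p n : ℝ)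

/-- Sums of at most `k` powers do not accumulate from below.  PROOF. More generally for every `T > 0` there
is `δ > 0` with: `s.length ≤ k`, `sum < T` imply `sum ≤ T - δ`.  Induction on `k`: `k = 0`: `δ = T`.  Step
(`k + 1`): let `n1` be the minimum of `s` (`s ≠ []`); if ` (k+1) la^(-n1) ≤ T/2` then the sum is `≤ T/2`.
Otherwise `n1` belongs to a finite set and the rest (erase `n1`) has sum `< T - la^(-n1)`, which is therefore
positive: use the induction hypothesis for the finitely many numbers `T - la^(-n1) > 0`; `δ` = minimum. -/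
def StGAP : Prop :=
  ∀ (la : ℝ) (k : ℕ), 1 < la → ∃ δ : ℝ, 0 < δ ∧ ∀ s : List ℕ, s.length ≤ k →
    (s.map fun n => (la⁻¹) ^ n).sum < 1 → (s.map fun n => (la⁻¹) ^ n).sum ≤ 1 - δ

/-- Choice of a rational number below `la`.  PROOF. The finitely many functions
`z ↦ ∑_{n ∈ s} z^n + k z^(M+1)` are continuous and `< 1` at `z = la⁻¹ > 0`, so also for `z = b/a` slightly larger
than `la⁻¹` (density of the rationals, `z < 1`). -/
def StCHO : Prop :=
  ∀ (la : ℝ) (k M : ℕ) (S : Finset (List ℕ)), 1 < la →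
    (∀ s ∈ S, (s.map fun n => (la⁻¹) ^ n).sum + k * (la⁻¹) ^ (M + 1) < 1) →
    ∃ a b : ℕ, 0 < b ∧ b < a ∧ (a : ℝ) / b < la ∧
      ∀ s ∈ S, (s.map fun n => ((b : ℝ) / a) ^ n).sum + k * ((b : ℝ) / a) ^ (M + 1) < 1

/-- The inequality in real numbers.  PROOF. Divide by `a^(M+1)`; `a^(M+1-|c|) / a^(M+1) = a^(-|c|)` as
`|c| ≤ M + 1`. -/
def StINE : Prop :=
  ∀ (a b k M : ℕ) (C : List (List ℕ)), 0 < a → (∀ c ∈ C, c.length ≤ M + 1) →
    (Ineq a b k M C ↔
      (C.map fun c => ((b : ℝ) / a) ^ c.length).sum + k * ((b : ℝ) / a) ^ (M + 1) < 1)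

/-! ## growth of languages -/

/-- Assembly: `StREC`, `StCM`, `StCL`, `StRC`, `StNUM` (`c = cnt (LX x)`, `p = cl x u`). -/
def StGR : Prop :=
  ∀ x : Inp, Fct (LX x) → Trn (LX x) → [] ∈ LX x → (∀ m, 1 ≤ cnt (LX x) m) →
    ∃ (u : List ℕ) (la K : ℝ), Rec x u ∧ Gr (LX x) la K ∧ (∀ n : ℕ, (cl x u n : ℝ) ≤ la ^ n) ∧
      ∀ r : ℝ, 0 < r → r < la → ∃ n : ℕ, 0 < n ∧ r ^ n ≤ (cl x u n : ℝ)

/-- A factorial transitive language with a nonempty word is infinite.  PROOF. By transitivity there are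
words of the language of length `≥ m` for every `m` (if `s` is one, `s ++ w ++ t` is longer by at least
`t.length ≥ 1`); take the prefix of length `m`; `cnt ≥ 1` by `fin_wds`. -/
def StINF : Prop :=
  ∀ x : Inp, Fct (LX x) → Trn (LX x) → (∃ t ∈ LX x, t ≠ []) → ∀ m, 1 ≤ cnt (LX x) m

/-- Zero entropy.  PROOF. Closed walk words of the same length are equal.  For `t ≠ []` in the language let
`d0 = w ++ t ++ w'` (`Rec`), a nonempty closed walk word.  `⊆`: for `t' ∈ LX x` let `d' = w1 ++ t' ++ w1'` be a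
closed walk word; if `d' = []` fine; otherwise the `|d0|`-fold power of `d'` and the `|d'|`-fold power of `d0` are
closed walk words of the same length, so they are equal, and `t'` is a factor of a power of `d0`.
`⊇`: powers `p` of `d0` satisfy `u ++ p ∈ LX x`. -/
def StZER : Prop :=
  ∀ (x : Inp) (u : List ℕ), Fct (LX x) → Rec x u → (∀ n, cl x u n ≤ 1) → (∃ t ∈ LX x, t ≠ []) →
    ∃ d : List ℕ, d ≠ [] ∧ LX x = Fac {d}

/-- Kraft inequality.  PROOF. `s = wt C la⁻¹`, `M0` = maximal length in `C`.  Let `F 0 = {[]}`,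
`F (j+1) = image₂ (· ++ ·) C (F j)`: the elements of `F j` are the `l.flatten`, `Over C l`, `l.length = j`, and
` (c, w) ↦ c ++ w` is injective on `C × F j` (`UD`), so `∑_{w ∈ F j} la^(-|w|) = s^j`.  The words of `F j` are in
`L` and have length `≤ j M0`: `s^j ≤ ∑_{m ≤ j M0} cnt L m la^(-m) ≤ K (j M0 + 1)` (`card_le_cnt`) for all `j`;
so `s ≤ 1`. -/
def StKU : Prop :=
  ∀ (L : Set (List ℕ)) (N : ℕ) (la K : ℝ), (∀ w ∈ L, ∀ a ∈ w, a < N) → Gr L la K →
    ∀ C : Finset (List ℕ), UD C → (∀ l, Over C l → l.flatten ∈ L) → wt C la⁻¹ ≤ 1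

/-- Kraft inequality, other direction.  PROOF. Suppose `wt C r⁻¹ < 1`.  By continuity there is `z > r⁻¹` with
`wt C z < 1`.  Let `a m` be the number of the lists `l` over `C` with `l.flatten.length = m` (finite since
`[] ∉ C`; define it recursively: `a 0 = 1`, `a m = ∑_{c ∈ C, |c| ≤ m} a (m - |c|)`): `a m ≤ z^(-m)` by strong
induction.  `M0` = maximal length in `C`.  A word `t ∈ Fac C` of length `m` is `(l.flatten.drop i).take m` with
`i ≤ M0`, `l.flatten.length ≤ m + 2 M0` (drop the words of `l` that do not meet the occurrence of `t`,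
`mi_front`, `mi_cut` may help), so `cnt (Fac C) m ≤ (M0+1) ∑_{i ≤ 2 M0} z^(-(m+i)) ≤ G z^(-m)`.  For `m = n j`:
` (z r)^(n j) ≤ G` for all `j`, but `z r > 1`. -/
def StKL : Prop :=
  ∀ (C : Finset (List ℕ)) (r : ℝ) (n : ℕ), [] ∉ C → 0 < r → 0 < n →
    (∀ j : ℕ, r ^ (n * j) ≤ (cnt (Fac C) (n * j) : ℝ)) → 1 ≤ wt C r⁻¹

/-- ENTROPY GAP.  PROOF. `Fac C ⊆ LX x` as the language is factorial.  Suppose `u0 ∈ LX x \ Fac C`.  With
`F j` as in `StKU` all `F j` are pairwise disjoint (`UD`), `B n` = the set of all words of `C*` of length `n`,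
`∑_{i ≤ J M0} |B i| la^(-i) ≥ ∑_{j ≤ J} s^j = J + 1` (`s = wt C la⁻¹ = 1`).  Fix `n`.  For `i ≤ n`, `z ∈ B i` and a
word `t` of the language of length `n - i` choose short `w, w'` (`StTS`, twice) with
`W = z ++ w ++ u0 ++ w' ++ t ∈ LX x`; `n + |u0| ≤ |W| ≤ n + |u0| + 2 NN x`.  For fixed `i` the map ` (z,t) ↦ W` is
injective (`z` = first `i` letters, `t` = last `n - i` letters).  A given `W` arises for at most `NN x + |u0|`
values of `i`: `W.take i = z` does not contain `u0` (as `u0 ∉ Fac C`), `W.take (i + NN x + |u0|)` does contain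
it, so with `e` = the least length of a prefix of `W` containing `u0`: `i < e ≤ i + NN x + |u0|`.  Hence
`∑_{i ≤ n} |B i| cnt (n - i) ≤ (NN x + |u0|) ∑_{l ≤ 2 NN x} cnt (n + |u0| + l) ≤ G la^n` with `G` independent of `n`,
while the left side is `≥ la^n ∑_{i ≤ n} |B i| la^(-i)`: contradiction for large `n`. -/
def StENT : Prop :=
  ∀ (x : Inp) (la K : ℝ), Fct (LX x) → Trn (LX x) → Gr (LX x) la K →
    ∀ C : Finset (List ℕ), UD C → (∀ l, Over C l → l.flatten ∈ LX x) → wt C la⁻¹ = 1 → LX x = Fac C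

/-- PROOF. `fac_infix`; if `p ++ u ++ q = l.flatten` and `p' ++ v ++ q' = l'.flatten` then `w = q ++ p'`. -/
def StFT : Prop := ∀ C : Finset (List ℕ), Fct (Fac C) ∧ Trn (Fac C)

/-! ## decidable forms -/

/-- Bounded double factorisations.  PROOF. `←` is clear (`mem_pw`).  `→`: if `[] ∈ C` then `[[]]` and `[]` violate
`UDX` (or `UD` fails and `UDX` fails).  Otherwise suppose `UD` fails and take `l1 ≠ l2` with equal flattening
and the flattening as short as possible; then `l1, l2 ≠ []` and their first words differ, and no common proper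
nonempty cut exists.  For `1 ≤ i < l1.length` let `j i` be the largest `j` with
` (l2.take j).flatten.length ≤ (l1.take i).flatten.length` and `t i` the word with
` (l1.take i).flatten = (l2.take (j i)).flatten ++ t i`: `t i` is a nonempty proper prefix of the word `l2[j i]` of
`C`.  If `t i = t i'` with `i < i'` then `l1.take i ++ l1.drop i'` and `l2.take (j i) ++ l2.drop (j i')` have the
same, shorter flattening and are different: if `j i ≥ 1` their first words are `l1[0] ≠ l2[0]`; if `j i = 0` the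
first word of the second one is `l2[j i']`, which has `t i = (l1.take i).flatten` as a proper prefix, so it is
longer than `l1[0]`.  So the `t i` are different and `l1.length - 1 ≤ ∑_{c ∈ C} |c| ≤ D0 C`; same for `l2`. -/
def StUD : Prop := ∀ C : List (List ℕ), UDX C ↔ UD C.toFinset

/-- Products in the language.  PROOF. `→`: let `l` be a shortest list over `C` with `l.flatten ∉ LX x`.  If
`l.length ≤ NN x` this contradicts `PrdOK` (`mem_pw`).  Otherwise two of the `NN x + 1` words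
` (l.take i).flatten`, `i ≤ NN x`, have the same `mk_cls x · < NN x` (`mk_cls_lt`); delete the part of `l` between
them (`few_LX` and its proof). -/
def StPRD : Prop :=
  ∀ (x : Inp) (C : List (List ℕ)), PrdOK x C ↔ ∀ l : List (List ℕ), (∀ c ∈ l, c ∈ C) → l.flatten ∈ LX x

/-- Positive certificates.  PROOF. As `PX_iff` in `Helper31/BD/L.lean` with `StUD` instead of `delOK_iff`
(`C.length = C.toFinset.card` for `C` without duplicates). -/
def StPOS : Prop := ∀ (x : Inp) (k : ℕ), (∃ B, PosP x k B) ↔ Gen (LX x) k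

/-- Soundness of the main negative certificate.  PROOF. Suppose `UD C`, `C.card ≤ k`, `LX x = Fac C`.
`[] ∉ C` (`ud_nil`), `Fct` (`StFT`), `0 < a`, `0 < b` (otherwise `a^n ≤ 0`).  `StCL`:
` (a/b)^(n j) ≤ (cl x u n)^j ≤ cnt (n j)`, so `1 ≤ wt C (b/a)` by `StKL` (`r = a/b`).  Let `C'` be the words of `C` of length
`≤ M`; it has a list form in `subs (wdLe x.1 M)` (`mem_subs`; letters `< x.1` as `c ∈ LX x`), which passes
`UDX` (`StUD`; a subset of a code is a code) and `PrdOK`.  `StINE`: `wt C' (b/a) + k (b/a)^(M+1) < 1`.  The other words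
have length `≥ M + 1` and there are at most `k` of them: `wt C (b/a) < 1`, contradiction. -/
def StSM : Prop :=
  ∀ (x : Inp) (k M a b n : ℕ) (u : List ℕ), NegM x k M a b n u → ¬ Gen (LX x) k

/-- Soundness.  PROOF. `StSM`; `StFT` for the factorial and transitive cases (with `StTS`, `mem_wdLe`); `k = 0`:
`C = ∅` and `Fac ∅ = {[]}`; `nil_mem_Fac`. -/
def StSND : Prop :=
  ∀ (x : Inp) (k M a b n : ℕ) (u w v : List ℕ), NegP x k M a b n u w v → ¬ Gen (LX x) k

/-- Completeness, positive entropy.  PROOF. `δ` from `StGAP la k`, `M` with `k la^(-(M+1)) < δ`.  For every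
`C ∈ subs (wdLe x.1 M)` (`subs_nodup`) with `C.length ≤ k`, `UDX C`, `PrdOK x C`: `wt C.toFinset la⁻¹ ≤ 1` (`StKU`),
not `= 1` (`StENT` would give `Gen`), so `≤ 1 - δ`, and with `k la^(-(M+1))` it is `< 1`.  `StCHO` for the lists of
lengths of these finitely many `C`; `r = a/b`; the hypothesis on `cl` gives `n`; `StINE`. -/
def StCM1 : Prop :=
  ∀ (x : Inp) (k : ℕ) (u : List ℕ) (la K : ℝ), Fct (LX x) → Trn (LX x) → Gr (LX x) la K → u ∈ LX x →
    (∀ r : ℝ, 0 < r → r < la → ∃ n : ℕ, 0 < n ∧ r ^ n ≤ (cl x u n : ℝ)) → 1 < la →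
    ¬ Gen (LX x) k → ∃ M a b n : ℕ, NegM x k M a b n u

/-- Completeness.  PROOF. If `[] ∉ LX x`, or not factorial, or not transitive: the corresponding alternative.
If all words of the language are empty then `LX x = {[]} = Fac ∅` and `Gen`.  So there is `t ≠ []` in the
language; if `k = 0` its first letter gives the fourth alternative.  `k ≥ 1`: `StINF`, `StGR`.  If `la = 1` then
`cl x u n ≤ 1` and `StZER`: `LX x = Fac {d}`, `d ≠ []`, `{d}` is a code with one word: `Gen`.  If `la > 1`: `StCM1`. -/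
def StCMP : Prop :=
  ∀ (x : Inp) (k : ℕ), ¬ Gen (LX x) k → ∃ (M a b n : ℕ) (u w v : List ℕ), NegP x k M a b n u w v

/-- Finiteness.  PROOF. If there is no such `C` fine.  Otherwise the language is `Fac C`, factorial and
transitive (`StFT`), contains `[]`, is not `{[]} = Fac {[]}`, so `StINF`, `StGR` apply, and `la > 1` (otherwise
`StZER`).  `δ` from `StGAP`, `k la^(-(M+1)) < δ`.  For every such `C`: `wt C la⁻¹ = 1` (`StKU`, `StKL` with `n = 1`,
`r = la`); if the subset `C'` of the words of length `≤ M` is not all of `C`, then `wt C' la⁻¹ < 1`, so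
`≤ 1 - δ` and `wt C la⁻¹ < 1`, contradiction.  So `C ⊆ (wdLe x.1 M).toFinset`. -/
def StFIN : Prop :=
  ∀ (x : Inp) (k : ℕ), (∀ w : List ℕ, LX x ≠ Fac {w}) →
    {C : Finset (List ℕ) | UD C ∧ C.card ≤ k ∧ LX x = Fac C}.Finite

/-! ## the procedure is computable -/

/-- PROOF. Bounded quantifiers over lists (`ctx_forall_lt`, `ctx_forall_mem`, `pp_imp` in
`Helper84/LD/Prims.lean`), `primrec_pw`, `mj_primrec_D0`, `mj_pp_LX`. -/
def StP1 : Prop :=
  PrimrecPred UDX ∧ PrimrecPred (fun q : Inp × List (List ℕ) => PrdOK q.1 q.2)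

/-- PROOF. Powers of natural numbers by `Primrec.nat_rec`; sums of maps of lists by `Primrec.list_foldr`. -/
def StP2 : Prop :=
  PrimrecPred (fun q : (ℕ × ℕ) × (ℕ × ℕ) × List (List ℕ) => Ineq q.1.1 q.1.2 q.2.1.1 q.2.1.2 q.2.2) ∧
  Primrec (fun q : Inp × List ℕ × ℕ => cl q.1 q.2.1 q.2.2)

/-- PROOF. `StP1`, `StP2`, `primrec_subs`, `mj_primrec_wdLe`, `mj_pp_FacX`, `mj_pp_LX`; `KK` is primitive
recursive (as in `pp_PX`). -/
def StP3 : Prop :=
  PrimrecPred (fun q : (Inp × ℕ) × Cer => CPos q.1.1 q.1.2 q.2) ∧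
  PrimrecPred (fun q : (Inp × ℕ) × Cer => CNeg q.1.1 q.1.2 q.2)

/-- THE THEOREM (decidability).  PROOF. Search over `m : ℕ` (`Nat.rfindOpt`), decoding `m` to a `Cer` `t`: if
`CPos` answer `true`, else if `CNeg` answer `false` (`StP3`).  The search succeeds by `StPOS`, `StCMP`; correct by
`StPOS`, `StSND`.  A total partial recursive function is computable. -/
def StDEC : Prop :=
  ∃ f : Inp × ℕ → Bool, Computable f ∧ ∀ (x : Inp) (k : ℕ), (f (x, k) = true ↔ Gen (LX x) k)

end Pool.Agent.Helper37.KW
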